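import Pool.Agent.H45.K2.PLS

/-!
# Plateaus, as a claim

If the frame is known to precision `lam` from the windows of exponent `w`, and the rows
`(w + lam, w + lam + x]` are not full, then the frame is known to precision `lam + h₀ J` from the
windows of exponent `w + x`.
-/

set_option autoImplicit false

namespace Pool.K2S

open Finset Real
open Pool.Agent.H49.Ent Pool.Agent.H32.Dense Pool.STK Pool.KA Pool.KSAT

/-- **(PLC)**, scale free: over rows which are not full the precision of the frame grows at a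
rate which depends only on the deficit of the rows. -/
def PLCXStmt : Prop :=
  ∀ a R : ℝ, 1 < a → 0 < R → UBa 2 a R → ∀ c : ℝ, 0 < c → ∃ dl : ℝ, 0 < dl ∧
    ∀ x μ h₁ : ℝ, 0 < x → 0 < μ → 0 < h₁ →
    ∃ N₁ : ℕ, ∀ N ≥ N₁, ∀ (i₀ : Fin 2) (v l s : ℕ), v + l + s ≤ N → x * N ≤ s →
    Claim (m := 2) a R (fun J F A =>
      CH (Pool.Agent.H49.Ent.cond F.p A True) (F.X ((v + l + s) * (J / N)))
        (fun ω => (F.X ((v + l) * (J / N)) ω, F.W ω)) ≤
        (2 - c) * (((s * (J / N) : ℕ) : ℝ) * Real.log 2) →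
      Lb F i₀ ⌊h₁ * J⌋₊ A →
      (∀ h : ℕ, (h : ℝ) ≤ (l * (J / N) : ℕ) + μ * J → Ln F i₀ h A) →
      Cn F i₀ (l * (J / N)) (v * (J / N)) A →
      ∀ h : ℕ, (h : ℝ) ≤ dl * ((s * (J / N) : ℕ) : ℝ) → (h : ℝ) ≤ μ / 8 * J →
        Cn F i₀ (l * (J / N) + h) ((v + s) * (J / N)) A)

/-- **(PLC)** No plateau over rows which are not full. -/
def PLCStmt : Prop :=
  ∀ a R : ℝ, 1 < a → 0 < R → UBa 2 a R → ∀ c x μ h₁ : ℝ, 0 < c → 0 < x → 0 < μ → 0 < h₁ →
    ∃ h₀ : ℝ, 0 < h₀ ∧ ∃ N₁ : ℕ, ∀ N ≥ N₁, ∀ (i₀ : Fin 2) (v l s : ℕ), v + l + s ≤ N →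
    x * N ≤ s →
    Claim (m := 2) a R (fun J F A =>
      CH (Pool.Agent.H49.Ent.cond F.p A True) (F.X ((v + l + s) * (J / N)))
        (fun ω => (F.X ((v + l) * (J / N)) ω, F.W ω)) ≤
        (2 - c) * (((s * (J / N) : ℕ) : ℝ) * Real.log 2) →
      Lb F i₀ ⌊h₁ * J⌋₊ A →
      (∀ h : ℕ, (h : ℝ) ≤ (l * (J / N) : ℕ) + μ * J → Ln F i₀ h A) →
      Cn F i₀ (l * (J / N)) (v * (J / N)) A →
      ∀ h : ℕ, (h : ℝ) ≤ h₀ * J → Cn F i₀ (l * (J / N) + h) ((v + s) * (J / N)) A)

/-- The gain of precision. -/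
noncomputable def plcH (dl μ : ℝ) (s N J : ℕ) : ℕ :=
  ⌊min (dl * ((s * (J / N) : ℕ) : ℝ)) (μ / 8 * J)⌋₊

theorem plcx_thm (h6 : AP6RStmt) : PLCXStmt := by
  classical
  intro a R ha hR hU c hc
  have hl2 : 0 < Real.log 2 := Real.log_pos (by norm_num)
  obtain ⟨c', hc'⟩ : ∃ c', c' = min c 1 / 2 := ⟨_, rfl⟩
  have hc'0 : 0 < c' := by rw [hc']; have := lt_min hc one_pos; linarith only [this]
  have hc'1 : c' ≤ 1 / 2 := by rw [hc']; have := min_le_right c 1; linarith only [this]
  have hc'c : c' ≤ c / 2 := by rw [hc']; have := min_le_left c 1; linarith only [this]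
  obtain ⟨dl, M, hdl, hM, hfull⟩ := plc_full (b := 4) ha.le hc'0 (by linarith only [hc'0, hc'1])
    (by norm_num) 2
  refine ⟨dl, hdl, fun x μ h₁ hx hμ hh₁ => ?_⟩
  obtain ⟨x', hx'⟩ : ∃ x', x' = min x 1 / 2 := ⟨_, rfl⟩
  have hx'0 : 0 < x' := by rw [hx']; have := lt_min hx one_pos; linarith only [this]
  have hx'1 : x' ≤ 1 := by rw [hx']; have := min_le_right x 1; linarith only [hc'0, hc'1, this]
  have hx'x : x' ≤ x / 2 := by rw [hx']; have := min_le_left x 1; linarith only [this]
  obtain ⟨c₉, hc₉, hfull⟩ := hfull x' hx'0 hx'1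
  obtain ⟨h₀, hh₀⟩ : ∃ h₀, h₀ = min c₉ μ / 8 := ⟨_, rfl⟩
  have hh₀0 : 0 < h₀ := by rw [hh₀]; have := lt_min hc₉ hμ; linarith only [this]
  have hh₀1 : 8 * h₀ ≤ c₉ := by rw [hh₀]; have := min_le_left c₉ μ; linarith only [this]
  have hh₀2 : 8 * h₀ ≤ μ := by rw [hh₀]; have := min_le_right c₉ μ; linarith only [this]
  refine ⟨1, fun N hN i₀ v l s hvls hs => ?_⟩
  have hN0 : 0 < N := hN
  have hNpos : (0 : ℝ) < N := by exact_mod_cast hN0
  -- the exponent of the spread
  obtain ⟨xb, hxb⟩ : ∃ xb, xb = min (min h₀ h₁) (1 / N) / 16 := ⟨_, rfl⟩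
  have hxb0 : 0 < xb := by
    rw [hxb]
    have := lt_min (lt_min hh₀0 hh₁) (show 0 < 1 / (N : ℝ) by positivity)
    linarith only [this]
  have hxb1 : 16 * xb ≤ h₀ := by
    rw [hxb]
    have := (min_le_left (min h₀ h₁) (1 / (N : ℝ))).trans (min_le_left _ _)
    linarith only [this]
  exact by
   have hxb2 : 16 * xb ≤ h₁ := by
     rw [hxb]
     have := (min_le_left (min h₀ h₁) (1 / (N : ℝ))).trans (min_le_right _ _)
     linarith only [this]
   have hxb3 : 16 * xb ≤ 1 / N := by
     rw [hxb]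
     have := min_le_right (min h₀ h₁) (1 / (N : ℝ))
     linarith only [this]
   have hN1 : 1 / (N : ℝ) ≤ 1 := by
     rw [div_le_one hNpos]
     exact_mod_cast hN0
   have hxb4 : xb ≤ 1 / 4 := by linarith only [hxb0, hxb3, hN1]
   obtain ⟨τb, hτb, Jb, hball⟩ := Fam.Stt.not_ball' h6 ha.le hR hU hxb0 hxb4
   -- the list
   refine Claim.one ⟨3, fun J F => ![Ball (1 / 2 ^ (⌊xb * J⌋₊ + 1)) (Fam.pt F) F.d,
     RotU i₀ (1 / 2 ^ (l * (J / N) + (plcH dl μ s N J + (⌊xb * J⌋₊ + 1) + 4)))
       (1 / 2 ^ (l * (J / N) + plcH dl μ s N J)) (Fam.pt F)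
       (wnd F (v * (J / N) + s * (J / N))) F.d,
     PlC F i₀ (v * (J / N)) (l * (J / N)) (s * (J / N)) M 2 4
       ((2 : ℝ) ^ (l * (J / N) + (plcH dl μ s N J + (⌊xb * J⌋₊ + 1) + 4)))⁻¹], ?_⟩
       fun κ hκ => ?_
   · intro J F i
     fin_cases i
     · exact Ball.hered _ _ _
     · exact RotU.hered _ _ _ _ _ _
     · exact PlC.hered _ _ _ _ _ _ _ _ _
   obtain ⟨τ₀, hτ₀, J₁, hfull⟩ := hfull R (κ / 2) (half_pos hκ)
   obtain ⟨τ, hτ⟩ : ∃ τ, τ = min τ₀ τb / 4 := ⟨_, rfl⟩
   have hτ0 : 0 < τ := by rw [hτ]; have := lt_min hτ₀ hτb; linarith only [this]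
   have hτ1 : 4 * τ ≤ τ₀ := by rw [hτ]; have := min_le_left τ₀ τb; linarith only [this]
   exact by
    have hτ2 : 4 * τ ≤ τb := by rw [hτ]; have := min_le_right τ₀ τb; linarith only [this]
    obtain ⟨J₂, hJ₂⟩ := exists_nat_gt (2 * N + 20 / xb + 2 * Real.log 2 / κ + Real.log 2 / τ +
      |Real.log (c' / 8)| / κ + 20 / h₀ + 1)
    refine ⟨τ, hτ0, max J₂ (max J₁ Jb), fun J hJ F A hS hSb hrow hLb hLn hCn => ?_⟩
    have hJr : 2 * N + 20 / xb + 2 * Real.log 2 / κ + Real.log 2 / τ +
        |Real.log (c' / 8)| / κ + 20 / h₀ + 1 < J :=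
      hJ₂.trans_le (by exact_mod_cast (le_max_left _ _).trans hJ)
    have q1 : 0 < 20 / xb := by positivity
    have q2 : 0 < 2 * Real.log 2 / κ := by positivity
    have q3 : 0 < Real.log 2 / τ := by positivity
    have q4 : 0 ≤ |Real.log (c' / 8)| / κ := by positivity
    have q5 : 0 < 20 / h₀ := by positivity
    have hJ0 : (0 : ℝ) < J := by linarith only [hNpos, hxb0, hxb3, hN1, hJr, q1, q2, q3, q4, q5]
    have r1 : 20 ≤ xb * J := by
      have : 20 / xb < J := by linarith only [hNpos, hxb0, hxb3, hN1, hJr, q2, q3, q4, q5]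
      rw [div_lt_iff₀ hxb0] at this
      linarith only [this]
    have r2 : 2 * Real.log 2 ≤ κ * J := by
      have : 2 * Real.log 2 / κ < J := by linarith only [hNpos, hxb0, hxb3, hN1, hJr, q1, q3, q4, q5]
      rw [div_lt_iff₀ hκ] at this
      linarith only [this]
    have r3 : Real.log 2 ≤ τ * J := by
      have : Real.log 2 / τ < J := by linarith only [hNpos, hxb0, hxb3, hN1, hJr, q1, q2, q4, q5]
      rw [div_lt_iff₀ hτ0] at this
      linarith only [this]
    have r4 : Real.exp (-(κ * J)) ≤ c' / 8 := by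
      have h1 : |Real.log (c' / 8)| / κ < J := by linarith only [hNpos, hxb0, hxb3, hN1, hJr, q1, q2, q3, q5]
      rw [div_lt_iff₀ hκ] at h1
      rw [← Real.exp_log (show 0 < c' / 8 by linarith only [hc'0])]
      refine Real.exp_le_exp.2 ?_
      have := neg_abs_le (Real.log (c' / 8))
      linarith only [h1, this]
    exact by
     have r5 : 2 * (N : ℝ) ≤ J := by linarith only [hxb0, hxb3, hN1, hJr, q1, q2, q3, q4, q5]
     have r6 : 20 ≤ h₀ * J := by
       have : 20 / h₀ < J := by linarith only [hNpos, hxb0, hxb3, hN1, hJr, q1, q2, q3, q4]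
       rw [div_lt_iff₀ hh₀0] at this
       linarith only [this]
     have hp := F.isLaw
     have hA0 : 0 < Pe F.p A := lt_of_lt_of_le (Real.exp_pos _) hS.2.2.2
     -- scales
     obtain ⟨u, hu⟩ : ∃ u, u = J / N := ⟨_, rfl⟩
     have hu1 : (N : ℝ) * u ≤ J := by rw [hu]; exact_mod_cast Nat.mul_div_le J N
     have hu2 : (J : ℝ) < N * (u + 1) := by rw [hu]; exact_mod_cast Nat.lt_mul_div_succ J hN0
     have hu0 : (0 : ℝ) ≤ u := Nat.cast_nonneg u
     obtain ⟨q₁, hq₁⟩ : ∃ q₁, q₁ = ⌊xb * J⌋₊ + 1 := ⟨_, rfl⟩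
     obtain ⟨hx₀, hhx₀⟩ : ∃ n, n = plcH dl μ s N J := ⟨_, rfl⟩
     obtain ⟨hh, hhh⟩ : ∃ n, n = hx₀ + q₁ + 4 := ⟨_, rfl⟩
     obtain ⟨lam, hlam⟩ : ∃ n, n = l * u := ⟨_, rfl⟩
     obtain ⟨w, hw⟩ : ∃ n, n = v * u := ⟨_, rfl⟩
     obtain ⟨X, hX⟩ : ∃ n, n = s * u := ⟨_, rfl⟩
     obtain ⟨f, hf⟩ : ∃ n, n = ⌊h₁ * J⌋₊ := ⟨_, rfl⟩
     have s0 : Stb F.p (κ * J) A (Ball (1 / 2 ^ q₁) (Fam.pt F) F.d) := by
       rw [hq₁]
       exact hSb 0
     have s1 : Stb F.p (κ * J) A (RotU i₀ (1 / 2 ^ (lam + hh)) (1 / 2 ^ (lam + hx₀)) (Fam.pt F)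
         (wnd F (w + X)) F.d) := by
       rw [hhh, hhx₀, hq₁, hlam, hw, hX, hu]
       exact hSb 1
     have s2 : Stb F.p (κ * J) A (PlC F i₀ w lam X M 2 4 ((2 : ℝ) ^ (lam + hh))⁻¹) := by
       rw [hhh, hhx₀, hq₁, hlam, hw, hX, hu]
       exact hSb 2
     have hnb : ¬ Ball (1 / 2 ^ q₁) (Fam.pt F) F.d A := by
       rw [hq₁]
       exact hball J ((le_max_right _ _).trans ((le_max_right _ _).trans hJ)) F A
         (hS.mono (by linarith only [hτ0, hτ2]))
     exact by
      have hlamr : (lam : ℝ) = l * u := by rw [hlam]; push_cast; ring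
      have hwr : (w : ℝ) = v * u := by rw [hw]; push_cast; ring
      have hXr : (X : ℝ) = s * u := by rw [hX]; push_cast; ring
      have hq₁r : (q₁ : ℝ) ≤ xb * J + 1 := by
        rw [hq₁]
        push_cast
        have := Nat.floor_le (show 0 ≤ xb * (J : ℝ) by positivity)
        linarith only [this]
      have hx₀d : (hx₀ : ℝ) ≤ dl * X := by
        rw [hhx₀, hX, hu]
        exact (Nat.floor_le (le_min (by positivity) (by positivity))).trans (min_le_left _ _)
      have hx₀μ : (hx₀ : ℝ) ≤ μ / 8 * J := by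
        rw [hhx₀]
        exact (Nat.floor_le (le_min (by positivity) (by positivity))).trans (min_le_right _ _)
      have hhr : (hh : ℝ) = hx₀ + q₁ + 4 := by rw [hhh]; push_cast; ring
      have k1 : 16 * (xb * J) ≤ h₀ * J := by
        have := mul_le_mul_of_nonneg_right hxb1 hJ0.le
        linarith only [this]
      have k2 : 16 * (xb * J) ≤ h₁ * J := by
        have := mul_le_mul_of_nonneg_right hxb2 hJ0.le
        linarith only [this]
      have k3 : 16 * (xb * J) ≤ J / N := by
        have := mul_le_mul_of_nonneg_right hxb3 hJ0.le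
        have e : 1 / (N : ℝ) * J = J / N := by ring
        linarith only [this, e]
      have k4 : 8 * (h₀ * J) ≤ c₉ * J := by
        have := mul_le_mul_of_nonneg_right hh₀1 hJ0.le
        linarith only [this]
      have k5 : 8 * (h₀ * J) ≤ μ * J := by
        have := mul_le_mul_of_nonneg_right hh₀2 hJ0.le
        linarith only [this]
      exact by
       have hfq : q₁ + 3 ≤ f := by
         rw [hf]
         refine Nat.le_floor ?_
         push_cast
         linarith only [hxb0, hxb3, hN1, r1, hq₁r, k2]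
       have hq₁c : (q₁ : ℝ) ≤ c₉ * J := by linarith only [hq₁r, k1, k4, r1]
       have hhq : (hh : ℝ) ≤ dl * X + c₉ * J := by
         rw [hhr]
         linarith only [hx₀d, hq₁r, k1, k4, r1]
       have hwJ : w + lam + X ≤ J := by
         have h1 : w + lam + X = (v + l + s) * u := by rw [hw, hlam, hX]; ring
         rw [h1]
         have h2 : (v + l + s) * u ≤ N * u := Nat.mul_le_mul_right u hvls
         have h3 : N * u ≤ J := by rw [hu]; exact Nat.mul_div_le J N
         omega
       have hxX : x' * J ≤ X := by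
         rw [hXr]
         have h1 : x * N * u ≤ s * u := mul_le_mul_of_nonneg_right hs hu0
         have h2 : (J : ℝ) / 2 ≤ N * u := by linarith only [hxb0, hxb3, hN1, hJr, q1, q2, q3, q4, q5, hu2]
         have h3 : x * (J / 2) ≤ x * (N * u) := mul_le_mul_of_nonneg_left h2 hx.le
         have h4 : x' * J ≤ x / 2 * J := mul_le_mul_of_nonneg_right hx'x hJ0.le
         linarith only [h1, h3, h4]
       have hX0 : (0 : ℝ) < X := lt_of_lt_of_le (by positivity) hxX
       have hXl : 0 < X * Real.log 2 := by positivity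
       -- it is enough to know the frame from the windows
       suffices hR : RotU i₀ (1 / 2 ^ (lam + hh)) (1 / 2 ^ (lam + hx₀)) (Fam.pt F)
           (wnd F (w + X)) F.d A by
         intro h hd hh'
         rw [← hu, ← hlam]
         have hle : h ≤ hx₀ := by
           rw [hhx₀]
           exact Nat.le_floor (le_min hd hh')
         refine hR.toCn (l := lam + h) (by omega) (by omega) ?_
         rw [hw, hX]
         ring
       by_contra hRn
       exact by
        have hκh : κ / 2 * J ≤ κ * J := by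
          have : 0 < κ * J := mul_pos hκ hJ0
          linarith only [this]
        rw [← hu] at hrow hLn hCn
        rw [← hlam] at hLn
        rw [← hlam, ← hw] at hCn
        have hrow' : CH (Pool.Agent.H49.Ent.cond F.p A True) (F.X (w + lam + X))
            (fun ω => (F.X (w + lam) ω, F.W ω)) ≤ (2 - c) * (X * Real.log 2) := by
          have e1 : (v + l + s) * u = w + lam + X := by rw [hw, hlam, hX]; ring
          have e2 : (v + l) * u = w + lam := by rw [hw, hlam]; ring
          rw [e1, e2, ← hX] at hrow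
          exact hrow
        obtain ⟨e₁, n₁, h₁'⟩ := hLn (lam + hh) (by
          push_cast
          rw [hhr]
          linarith only [hx₀μ, hq₁r, k1, k5, r1])
        obtain ⟨e₀, n₀, h₀'⟩ := hLb
        rw [← hf] at h₀'
        rcases Nat.eq_zero_or_pos l with hl0 | hl0
        · -- precision `1`
          have hlam0 : lam = 0 := by rw [hlam, hl0, Nat.zero_mul]
          have hf1 : (1 : ℝ) / 2 ^ f ≤ 1 := by
            rw [div_le_one (by positivity)]
            exact one_le_pow₀ (by norm_num)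
          have hinv : ((2 : ℝ) ^ lam)⁻¹ = 1 := by rw [hlam0]; norm_num
          have hon : OnL i₀ ((2 : ℝ) ^ lam)⁻¹ (Fam.pt F) F.d A e₀ n₀ := by
            rw [hinv]
            exact fun ω hω j => (h₀'.line ω hω j).trans hf1
          have hcl : ∀ ω, A ω → ∀ j : Fin 2, |e₀ (Fam.pt F ω) j - (0 : ℝ)| ≤
              (2 : ℕ) * ((2 : ℝ) ^ lam)⁻¹ := by
            intro ω hω j
            rw [hinv, sub_zero]
            have := h₀'.bound ω hω j
            push_cast
            linarith only [hxb0, hxb3, hN1, this]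
          have hfu := hfull J ((le_max_left _ _).trans ((le_max_right _ _).trans hJ)) F A
            (hS.mono (by linarith only [hτ0, hτ1])) i₀ w lam X q₁ f hx₀ hh e₀ n₀ e₁ n₁ e₀ n₀ (fun _ _ => 0) hwJ hxX hq₁c hhq
            (s0.mono hp hκh) hnb h₀' (by omega) h₁' (by omega)
            (s1.mono hp hκh) hRn (s2.mono hp hκh)
            hon (fun _ _ => ⟨0, by simp⟩) (fun _ _ => by simp) hcl
          have h4 : c' * (X * Real.log 2) ≤ c / 2 * (X * Real.log 2) :=
            mul_le_mul_of_nonneg_right hc'c hXl.le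
          have h5 : 0 < c * (X * Real.log 2) := by positivity
          linarith only [hrow', hfu, h4, h5]
        · -- the frame of the windows
          have hlamq : q₁ + 3 ≤ lam := by
            have h1 : (q₁ : ℝ) + 3 ≤ lam := by
              have h2 : (u : ℝ) ≤ lam := by
                rw [hlamr]
                have : (1 : ℝ) ≤ l := by exact_mod_cast hl0
                exact le_mul_of_one_le_left hu0 this
              have h3 : J / N < (u : ℝ) + 1 := by
                rw [div_lt_iff₀ hNpos]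
                linarith only [hu2]
              linarith only [h2, h3, k3, hq₁r, r1]
            exact_mod_cast h1
          obtain ⟨A', hsub, hPA', e, n, ζ, hon, hgr, hbd, hcl⟩ :=
            steep_remove (w := w) hA0 h₀' s0 hnb hCn hlamq hfq
          have hhalf : Real.exp (-Real.log 2) * Pe F.p A ≤ Pe F.p A' := by
            refine le_trans (mul_le_mul_of_nonneg_right ?_ hA0.le) hPA'
            rw [show Real.exp (-Real.log 2) = 1 / 2 by
              rw [Real.exp_neg, Real.exp_log (by norm_num)]; norm_num]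
            linarith only [r4, hc'1]
          have hS' : Fam.Stt F a R τ₀ A' := by
            have h0 := hS.mono (τ' := τ₀) (by linarith only [hτ1, hτ0])
            refine ⟨h0.1, h0.2.1, h0.2.2.1, le_trans ?_ hhalf⟩
            have h1 := hS.2.2.2
            calc Real.exp (-(τ₀ * J)) ≤ Real.exp (-Real.log 2) * Real.exp (-(τ * J)) := by
                  rw [← Real.exp_add]
                  refine Real.exp_le_exp.2 ?_
                  have h3 : 4 * τ * J ≤ τ₀ * J := mul_le_mul_of_nonneg_right hτ1 hJ0.le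
                  have h4 : 0 < τ * J := mul_pos hτ0 hJ0
                  linarith only [h3, h4, r3]
              _ ≤ _ := mul_le_mul_of_nonneg_left h1 (Real.exp_pos _).le
          have hκ2 : κ / 2 * J ≤ κ * J - Real.log 2 := by linarith only [r2]
          have hexp2 : Real.exp (-(κ * J)) * Pe F.p A ≤ Real.exp (-Real.log 2) * Pe F.p A :=
            mul_le_mul_of_nonneg_right (Real.exp_le_exp.2 (by linarith only [r2, hl2])) hA0.le
          have hfu := hfull J ((le_max_left _ _).trans ((le_max_right _ _).trans hJ)) F A' hS'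
            i₀ w lam X q₁ f hx₀ hh e₀ n₀ e₁ n₁ e n ζ hwJ hxX hq₁c hhq
            ((s0.sub (Ball.hered _ _ _) hsub hhalf).mono hp hκ2)
            (fun h => hnb (s0.of_sub hsub (hexp2.trans hhalf) h))
            ⟨fun ω hω => h₀'.bound ω (hsub ω hω), fun ω hω => h₀'.line ω (hsub ω hω)⟩ (by omega)
            (h₁'.sub hsub) (by omega)
            ((s1.sub (RotU.hered _ _ _ _ _ _) hsub hhalf).mono hp hκ2)
            (fun h => hRn (s1.of_sub hsub (hexp2.trans hhalf) h))
            ((s2.sub (PlC.hered _ _ _ _ _ _ _ _ _) hsub hhalf).mono hp hκ2)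
            hon hgr hbd hcl
          · have hev := CH_event hp hsub hA0 (F.X (w + lam + X)) (fun ω => (F.X (w + lam) ω, F.W ω))
            have hfrac : 1 - c' / 8 ≤ Pe F.p A' / Pe F.p A := by
              rw [le_div_iff₀ hA0]
              exact (mul_le_mul_of_nonneg_right (by linarith only [r4]) hA0.le).trans hPA'
            have hnn : 0 ≤ (2 - c') * (X * Real.log 2) := mul_nonneg (by linarith only [hc'1, hxb0, hxb3, hN1]) hXl.le
            have h1 : (1 - c' / 8) * ((2 - c') * (X * Real.log 2)) ≤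
                CH (Pool.Agent.H49.Ent.cond F.p A True) (F.X (w + lam + X))
                  (fun ω => (F.X (w + lam) ω, F.W ω)) := by
              refine le_trans ?_ hev
              exact (mul_le_mul_of_nonneg_right hfrac hnn).trans
                (mul_le_mul_of_nonneg_left hfu (div_nonneg (Pe_nonneg hp _) hA0.le))
            have h2 : (1 - c' / 8) * (2 - c') = 2 - c' - c' / 4 + c' * c' / 8 := by ring
            have h3 : (2 - c) < (1 - c' / 8) * (2 - c') := by
              rw [h2]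
              have : 0 < c' * c' := by positivity
              linarith only [hc, hc'c, this]
            have h4 : (2 - c) * (X * Real.log 2) < (1 - c' / 8) * (2 - c') * (X * Real.log 2) :=
              mul_lt_mul_of_pos_right h3 hXl
            linarith only [hrow', h1, h4]

theorem plclaim_thm (h6 : AP6RStmt) : PLCStmt := by
  intro a R ha hR hU c x μ h₁ hc hx hμ hh₁
  obtain ⟨dl, hdl, h⟩ := plcx_thm h6 a R ha hR hU c hc
  obtain ⟨N₁, hN₁⟩ := h x μ h₁ hx hμ hh₁
  refine ⟨min (dl * x / 2) (μ / 8), lt_min (by positivity) (by positivity), max N₁ 1,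
    fun N hN i₀ v l s hvls hs => ?_⟩
  have hN0 : 0 < N := (le_max_right N₁ 1).trans hN
  have hNpos : (0 : ℝ) < N := by exact_mod_cast hN0
  refine Claim.mono (2 * N) ?_ (hN₁ N ((le_max_left _ _).trans hN) i₀ v l s hvls hs)
  intro J hJ F A h1 h2 h3 h4 h5 h hh
  have hJ' : 2 * (N : ℝ) ≤ J := by exact_mod_cast hJ
  have hu2 : (J : ℝ) < N * ((J / N : ℕ) + 1) := by exact_mod_cast Nat.lt_mul_div_succ J hN0
  refine h1 h2 h3 h4 h5 h (hh.trans ?_) (hh.trans ?_)
  · have e1 : x * N * (J / N : ℕ) ≤ s * (J / N : ℕ) :=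
      mul_le_mul_of_nonneg_right hs (Nat.cast_nonneg _)
    have e2 : x * (J / 2) ≤ x * (N * (J / N : ℕ)) :=
      mul_le_mul_of_nonneg_left (by linarith only [hJ', hu2]) hx.le
    have e3 : x * (J / 2) ≤ s * (J / N : ℕ) := by linarith only [e1, e2]
    have e4 := mul_le_mul_of_nonneg_left e3 hdl.le
    have e5 : min (dl * x / 2) (μ / 8) * J ≤ dl * x / 2 * J :=
      mul_le_mul_of_nonneg_right (min_le_left _ _) (Nat.cast_nonneg J)
    push_cast
    linarith only [e4, e5]
  · exact mul_le_mul_of_nonneg_right (min_le_right _ _) (Nat.cast_nonneg J)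

end Pool.K2S
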