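import Pool.Agent.H45.K2.PLF
import Pool.Agent.H13.K2S.Npc

/-!
# Removal of the points with steep slopes
-/

set_option autoImplicit false

namespace Pool.K2S

open Finset Real
open Pool.Agent.H49.Ent Pool.Agent.H32.Dense Pool.STK Pool.KA Pool.KSAT

/-- The frame of the windows, rounded and bounded. -/
noncomputable def rdz {J : ℕ} (F : Fam 2 J) (lam : ℕ)
    (ζ : ((Fin 2 → ℝ) × (Fin 2 → ℝ)) × F.ζ × ℕ → Fin 2 → ℝ)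
    (y : ((Fin 2 → ℝ) × (Fin 2 → ℝ)) × (ℕ × F.ζ)) (j : Fin 2) : ℝ :=
  open Classical in
  if |ζ (y.1, y.2.2, y.2.1) j| ≤ 3 then (⌊(2 : ℝ) ^ lam * ζ (y.1, y.2.2, y.2.1) j⌋ : ℝ) / 2 ^ lam
  else 0

theorem rdz_grid {J : ℕ} (F : Fam 2 J) (lam : ℕ)
    (ζ : ((Fin 2 → ℝ) × (Fin 2 → ℝ)) × F.ζ × ℕ → Fin 2 → ℝ)
    (y : ((Fin 2 → ℝ) × (Fin 2 → ℝ)) × (ℕ × F.ζ)) (j : Fin 2) :
    ∃ k : ℤ, rdz F lam ζ y j = k / 2 ^ lam := by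
  unfold rdz
  split_ifs
  · exact ⟨_, rfl⟩
  · exact ⟨0, by simp⟩

theorem rdz_near {J : ℕ} (F : Fam 2 J) (lam : ℕ)
    (ζ : ((Fin 2 → ℝ) × (Fin 2 → ℝ)) × F.ζ × ℕ → Fin 2 → ℝ)
    (y : ((Fin 2 → ℝ) × (Fin 2 → ℝ)) × (ℕ × F.ζ)) (j : Fin 2)
    (h : |ζ (y.1, y.2.2, y.2.1) j| ≤ 3) :
    |ζ (y.1, y.2.2, y.2.1) j - rdz F lam ζ y j| ≤ ((2 : ℝ) ^ lam)⁻¹ := by
  unfold rdz
  rw [if_pos h]
  have h2 : (0 : ℝ) < 2 ^ lam := by positivity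
  have h3 := Int.floor_le ((2 : ℝ) ^ lam * ζ (y.1, y.2.2, y.2.1) j)
  have h4 := Int.lt_floor_add_one ((2 : ℝ) ^ lam * ζ (y.1, y.2.2, y.2.1) j)
  have e : ζ (y.1, y.2.2, y.2.1) j - (⌊(2 : ℝ) ^ lam * ζ (y.1, y.2.2, y.2.1) j⌋ : ℝ) / 2 ^ lam =
      (2 ^ lam * ζ (y.1, y.2.2, y.2.1) j - ⌊(2 : ℝ) ^ lam * ζ (y.1, y.2.2, y.2.1) j⌋) *
        ((2 : ℝ) ^ lam)⁻¹ := by
    field_simp
  rw [e, abs_mul, abs_of_pos (inv_pos.2 h2)]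
  have h5 : |(2 : ℝ) ^ lam * ζ (y.1, y.2.2, y.2.1) j -
      ⌊(2 : ℝ) ^ lam * ζ (y.1, y.2.2, y.2.1) j⌋| ≤ 1 := by
    rw [abs_le]
    constructor <;> linarith
  calc _ ≤ 1 * ((2 : ℝ) ^ lam)⁻¹ := mul_le_mul_of_nonneg_right h5 (inv_pos.2 h2).le
    _ = _ := one_mul _

theorem rdz_bound {J : ℕ} (F : Fam 2 J) (lam : ℕ)
    (ζ : ((Fin 2 → ℝ) × (Fin 2 → ℝ)) × F.ζ × ℕ → Fin 2 → ℝ)
    (y : ((Fin 2 → ℝ) × (Fin 2 → ℝ)) × (ℕ × F.ζ)) (j : Fin 2) :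
    |rdz F lam ζ y j| ≤ 4 := by
  by_cases h : |ζ (y.1, y.2.2, y.2.1) j| ≤ 3
  · have h1 := rdz_near F lam ζ y j h
    have h2 : ((2 : ℝ) ^ lam)⁻¹ ≤ 1 := by
      rw [inv_le_one₀ (by positivity)]
      exact one_le_pow₀ (by norm_num)
    have h3 := abs_sub_abs_le_abs_sub (rdz F lam ζ y j) (ζ (y.1, y.2.2, y.2.1) j)
    rw [abs_sub_comm] at h3
    linarith
  · unfold rdz
    rw [if_neg h]
    norm_num

/-- From the windows of one convention to the other one. -/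
theorem RotU.toCn {J : ℕ} {F : Fam 2 J} {i₀ : Fin 2} {l l' g W W' : ℕ} {A : F.Ω → Prop}
    (hl : l ≤ l') (hg : l ≤ g) (hW : W = W') 
    (H : RotU i₀ (1 / 2 ^ l') (1 / 2 ^ g) (Fam.pt F) (wnd F W) F.d A) :
    Cn F i₀ l W' A := by
  subst hW
  have e1 : (1 : ℝ) / 2 ^ l' ≤ 1 / 2 ^ l :=
    one_div_le_one_div_of_le (by positivity) (pow_le_pow_right₀ (by norm_num) hl)
  have e2 : (1 : ℝ) / 2 ^ g ≤ 1 / 2 ^ l :=
    one_div_le_one_div_of_le (by positivity) (pow_le_pow_right₀ (by norm_num) hg)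
  have H' := H.mono e1 e2
  refine RotU.window (φ := fun y => (y.1, y.2.2, y.2.1)) ?_ H'
  intro ω
  rfl

/-- The fans are spread. -/
theorem Fam.Stt.not_ball' (h6 : AP6RStmt) {a R : ℝ} (ha : 1 ≤ a) (hR : 0 < R) (hU : UBa 2 a R)
    {x : ℝ} (hx : 0 < x) (hx1 : x ≤ 1 / 4) :
    ∃ τ > 0, ∃ J₁ : ℕ, ∀ J ≥ J₁, ∀ (F : Fam 2 J) (A : F.Ω → Prop), Fam.Stt F a R τ A →
      ¬ Ball (1 / 2 ^ (⌊x * J⌋₊ + 1)) (Fam.pt F) F.d A := by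
  classical
  obtain ⟨τb, hτb, Jb, hball⟩ := not_ball h6 ha hR hU hx
  obtain ⟨τ, hτ⟩ : ∃ τ, τ = τb / (6 * (1 + a)) := ⟨_, rfl⟩
  have hτ0 : 0 < τ := by rw [hτ]; positivity
  refine ⟨τ, hτ0, max Jb 4, fun J hJ F A hS => ?_⟩
  rintro ⟨vv, hvv⟩
  have hp := F.isLaw
  have hJ4 : (4 : ℝ) ≤ J := by exact_mod_cast (le_max_right _ _).trans hJ
  have hJ0 : (0 : ℝ) ≤ J := by linarith
  obtain ⟨hlaw, -, hMx, -⟩ := hS.res ha hτ0.le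
  have e1 : (1 + a) * (6 * τ) = τb := by
    rw [hτ]
    field_simp
  rw [e1] at hMx
  refine hball J ((le_max_left _ _).trans hJ) (F.res A True hlaw) hMx (⌊x * J⌋₊ + 1) ?_ ?_
    ⟨vv, fun ω hω k => ?_⟩
  · have h1 : (⌊x * J⌋₊ : ℝ) ≤ x * J := Nat.floor_le (by positivity)
    have : ((⌊x * J⌋₊ + 1 : ℕ) : ℝ) ≤ J := by
      push_cast
      have : x * J ≤ 1 / 4 * J := mul_le_mul_of_nonneg_right hx1 hJ0
      linarith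
    exact_mod_cast this
  · push_cast
    exact (Nat.lt_floor_add_one _).le
  · have hω' : 0 < Pool.Agent.H49.Ent.cond F.p A True ω := hω
    have hωA := ((cond_pos_iff hp.nonneg A True ω).1 hω').2
    have hA' : A ω := by simpa using hωA
    exact hvv ω hA' k

/-- Outside a small event the frame of the windows can be chosen bounded and on the grid. -/
theorem steep_remove {J : ℕ} {F : Fam 2 J} {i₀ : Fin 2} {w lam q₁ f : ℕ} {κ : ℝ}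
    {A : F.Ω → Prop} (hA0 : 0 < Pe F.p A) {e₀ n₀ : (Fin 2 → ℤ) × (ℕ × F.ζ) → Fin 2 → ℝ}
    (h₀ : IsFrame i₀ (1 / 2 ^ f) (Fam.pt F) F.d A e₀ n₀)
    (s0 : Stb F.p κ A (Ball (1 / 2 ^ q₁) (Fam.pt F) F.d))
    (hnb : ¬ Ball (1 / 2 ^ q₁) (Fam.pt F) F.d A) (hCn : Cn F i₀ lam w A)
    (hlamq : q₁ + 3 ≤ lam) (hfq : q₁ + 3 ≤ f) :
    ∃ A' : F.Ω → Prop, Sub A' A ∧ (1 - Real.exp (-κ)) * Pe F.p A ≤ Pe F.p A' ∧
      ∃ (e n : (Fin 2 → ℤ) × (ℕ × F.ζ) → Fin 2 → ℝ)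
        (ζ : ((Fin 2 → ℝ) × (Fin 2 → ℝ)) × (ℕ × F.ζ) → Fin 2 → ℝ),
        OnL i₀ ((2 : ℝ) ^ lam)⁻¹ (Fam.pt F) F.d A' e n ∧
        (∀ v j, ∃ k : ℤ, ζ v j = k / 2 ^ lam) ∧ (∀ v j, |ζ v j| ≤ 4) ∧
        (∀ ω, A' ω → ∀ j, |e (Fam.pt F ω) j - ζ (wnd F w ω) j| ≤
          (2 : ℕ) * ((2 : ℝ) ^ lam)⁻¹) := by
  classical
  have hp := F.isLaw
  obtain ⟨e, n, ζ, g1, g2⟩ := hCn
  have hinv : (1 : ℝ) / 2 ^ lam ≤ 1 := by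
    rw [div_le_one (by positivity)]
    exact one_le_pow₀ (by norm_num)
  obtain ⟨Bg, hBg⟩ : ∃ Bg : F.Ω → Prop, Bg = fun ω => A ω ∧ ∃ j, 3 < |ζ (slam F w ω) j| :=
    ⟨_, rfl⟩
  have hsteep := steep_ball (wn := slam F w) (ζ := ζ) h₀ g1
    (fun ω hω k => (g2 ω hω k).trans hinv)
  rw [← hBg] at hsteep
  have hballB : Ball (1 / 2 ^ q₁) (Fam.pt F) F.d Bg := by
    obtain ⟨vv, hvv⟩ := hsteep
    exact ⟨vv, fun ω hω k => (hvv ω hω k).trans (ball_arith hlamq hfq)⟩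
  have hBgA : Sub Bg A := by
    rw [hBg]
    exact fun ω hω => hω.1
  have hBgs : Pe F.p Bg < Real.exp (-κ) * Pe F.p A := by
    by_contra hcon
    push Not at hcon
    exact hnb (s0.of_sub hBgA hcon hballB)
  refine ⟨fun ω => A ω ∧ ¬ Bg ω, fun ω hω => hω.1, ?_, e, n, rdz F lam ζ, ?_,
    rdz_grid F lam ζ, rdz_bound F lam ζ, ?_⟩
  · refine Pe_diff_ge (le_trans ?_ hBgs.le)
    exact Pe_mono hp fun ω hω => hω.2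
  · have : ((2 : ℝ) ^ lam)⁻¹ = 1 / 2 ^ lam := by rw [one_div]
    rw [this]
    exact g1.sub fun ω hω => hω.1
  · intro ω hω j
    have hz : |ζ (slam F w ω) j| ≤ 3 := by
      by_contra h
      push Not at h
      refine hω.2 ?_
      rw [hBg]
      exact ⟨hω.1, j, h⟩
    have e1 := rdz_near F lam ζ (wnd F w ω) j hz
    have e2 := g2 ω hω.1 j
    have e3 : ((2 : ℝ) ^ lam)⁻¹ = 1 / 2 ^ lam := by rw [one_div]
    rw [e3] at e1 ⊢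
    change |ζ (slam F w ω) j - rdz F lam ζ (wnd F w ω) j| ≤ 1 / 2 ^ lam at e1
    calc |e (Fam.pt F ω) j - rdz F lam ζ (wnd F w ω) j| =
          |(e (Fam.pt F ω) j - ζ (slam F w ω) j) +
            (ζ (slam F w ω) j - rdz F lam ζ (wnd F w ω) j)| := by ring_nf
      _ ≤ _ := (abs_add_le _ _).trans (by push_cast; linarith)

end Pool.K2S
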