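import Pool.Agent.H9.K2.Stmts2
import Pool.Agent.H68.K2.AP2
import Pool.Agent.H52.K2.AP6
import Pool.Agent.H20.K2.AOP
import Pool.Agent.H64.KA.TUB

/-!
# Activity of the fans

The velocity block `om` after the digit `q` is not concentrated on a small ball given the exact
point, for a positive density of `q`.
-/

set_option autoImplicit false

namespace Pool.KA

open Finset Real
open Pool.Agent.H49.Ent Pool.Agent.H32.Dense Pool.STK

open Classical in
/-- The probability of an event. -/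
noncomputable def pr' {Ω : Type} [Fintype Ω] (p : Ω → ℝ) (E : Ω → Prop) : ℝ :=
  ∑ ω, if E ω then p ω else 0

/-- Given the value of `pt`, the vector `om` is not concentrated, up to probability `ρ`, on any
ball of radius `r`. -/
def NAt {Ω S : Type} [Fintype Ω] {d : ℕ} (p : Ω → ℝ) (om : Ω → Fin d → ℤ) (pt : Ω → S) (ρ : ℝ)
    (r : ℕ) (ω : Ω) : Prop :=
  ∀ v : Fin d → ℤ, pr' p (fun ω' => pt ω' = pt ω ∧ ∀ i, |om ω' i - v i| ≤ r) ≤
    (1 - ρ) * law p pt (pt ω)

/-- The conditional probability of an event given the value of `Y`. -/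
noncomputable def cpE {Ω S : Type} [Fintype Ω] (p : Ω → ℝ) (E : Ω → Prop) (Y : Ω → S) (ω : Ω) :
    ℝ := pr' p (fun w => Y w = Y ω ∧ E w) / law p Y (Y ω)

/-- (ACT-A) Entropy and nonconcentration. -/
def ACTAStmt : Prop :=
  ∀ (Ω S : Type) [Fintype Ω] (p : Ω → ℝ) (d N r : ℕ) (om : Ω → Fin d → ℤ) (pt : Ω → S) (ρ : ℝ),
    IsLaw p → 0 ≤ ρ → 1 ≤ N → (∀ ω i, 0 ≤ om ω i ∧ om ω i < N) →
    CH p om pt ≤ Real.log 2 + d * Real.log (2 * r + 1) +
      (pr' p (NAt p om pt ρ r) + ρ) * (d * Real.log N)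

/-- (ACT-B) Blocks of `k` digits of the direction: their entropies given the exact point. -/
def ACTBStmt : Prop :=
  ∀ (m J : ℕ) (F : Fam m J) (k n : ℕ),
    (∀ i, CH F.p (F.D (k * (i + 1))) (fun ω => (F.D (k * i) ω, (F.X J ω, F.W ω))) ≤
      m * (k * Real.log 2)) ∧
    CH F.p (F.D (k * n)) (fun ω => (F.X J ω, F.W ω)) ≤ m * Real.log 3 +
      ∑ i ∈ range n, CH F.p (F.D (k * (i + 1))) (fun ω => (F.D (k * i) ω, (F.X J ω, F.W ω)))

open Classical in
/-- (ACT-C) The fans of a near-maximiser are active at a positive density of scales. -/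
def ACTCStmt : Prop :=
  ∀ (m : ℕ) (a R : ℝ), 1 ≤ m → 1 ≤ a → 0 < R → UBa m a R → ∀ x : ℝ, 0 < x → ∃ τ > 0, ∃ J₁ : ℕ,
    ∀ J ≥ J₁, ∀ F : Fam m J, F.Mx a R τ → ∀ k n : ℕ, 1 ≤ k → x * J ≤ k * n → k * n ≤ J →
    R / (4 * a * m * Real.log 2) * n ≤
      ((range n).filter fun i => R / (4 * a) * k ≤
        CH F.p (F.D (k * (i + 1))) (fun ω => (F.D (k * i) ω, (F.X J ω, F.W ω)))).card

/-- (ACT-D) Martingale: outside probability `ρ` of the event `E`, the conditional probabilities
of `E` given nested labels are at least `ρ`. -/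
def ACTDStmt : Prop :=
  ∀ (Ω : Type) (β : ℕ → Type) [Fintype Ω] (p : Ω → ℝ) (b : ∀ i, Ω → β i) (E : Ω → Prop) (ρ : ℝ)
    (n : ℕ), IsLaw p → (∀ i, Det p (b (i + 1)) (b i)) → 0 ≤ ρ →
    pr' p (fun ω => E ω ∧ ∃ i < n, cpE p E (b i) ω < ρ) ≤ ρ

/-- (ACT-E) Mates: two samples with the same point. -/
def ACTEStmt : Prop :=
  ∀ (Ω S : Type) [Fintype Ω] (p : Ω → ℝ) (d r : ℕ) (om : Ω → Fin d → ℤ) (pt : Ω → S) (ρ : ℝ)
    (A : Ω → Prop), IsLaw p → (∀ ω, 0 < p ω → A ω → NAt p om pt ρ r ω) →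
    ρ * pr' p A ≤ pr' (cpy p pt) (fun w => A w.1 ∧ ∃ i, (r : ℤ) < |om w.2 i - om w.1 i|)

section

variable {Ω S T : Type} [Fintype Ω]

lemma pr'_nonneg {p : Ω → ℝ} (hp : ∀ ω, 0 ≤ p ω) (E : Ω → Prop) : 0 ≤ pr' p E := by
  classical
  unfold pr'
  refine Finset.sum_nonneg fun ω _ => ?_
  split_ifs
  · exact hp ω
  · exact le_rfl

lemma pr'_mono {p : Ω → ℝ} (hp : ∀ ω, 0 ≤ p ω) {E F : Ω → Prop}
    (h : ∀ ω, 0 < p ω → E ω → F ω) : pr' p E ≤ pr' p F := by
  classical
  unfold pr'
  refine Finset.sum_le_sum fun ω _ => ?_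
  rcases (hp ω).eq_or_lt with h0 | h0
  · rw [← h0]
    simp
  · by_cases hE : E ω
    · rw [if_pos hE, if_pos (h ω h0 hE)]
    · rw [if_neg hE]
      split_ifs
      · exact hp ω
      · exact le_rfl

lemma pr'_congr {p : Ω → ℝ} (hp : ∀ ω, 0 ≤ p ω) {E F : Ω → Prop}
    (h : ∀ ω, 0 < p ω → (E ω ↔ F ω)) : pr' p E = pr' p F :=
  le_antisymm (pr'_mono hp fun ω h0 => (h ω h0).mp) (pr'_mono hp fun ω h0 => (h ω h0).mpr)

lemma pr'_le_one {p : Ω → ℝ} (hp : IsLaw p) (E : Ω → Prop) : pr' p E ≤ 1 := by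
  classical
  unfold pr'
  rw [← hp.sum_one]
  refine Finset.sum_le_sum fun ω _ => ?_
  split_ifs
  · exact le_rfl
  · exact hp.nonneg ω

lemma pr'_add (p : Ω → ℝ) (E F : Ω → Prop) :
    pr' p E = pr' p (fun ω => E ω ∧ F ω) + pr' p (fun ω => E ω ∧ ¬ F ω) := by
  classical
  unfold pr'
  rw [← Finset.sum_add_distrib]
  refine Finset.sum_congr rfl fun ω _ => ?_
  by_cases hE : E ω <;> by_cases hF : F ω <;> simp [hE, hF]

lemma law_eq_pr' (p : Ω → ℝ) (Y : Ω → T) (s : T) : law p Y s = pr' p (fun ω => Y ω = s) := rfl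

/-- Sums over the fibres of a map. -/
lemma pr'_fib (p : Ω → ℝ) (E : Ω → Prop) (Y : Ω → T) :
    pr' p E = ∑ s ∈ (open Classical in univ.image Y), pr' p (fun ω => Y ω = s ∧ E ω) := by
  classical
  unfold pr'
  rw [Finset.sum_comm]
  refine Finset.sum_congr rfl fun ω _ => ?_
  rw [Finset.sum_eq_single (Y ω)]
  · by_cases hE : E ω
    · simp [hE]
    · simp [hE]
  · intro b _ hb
    rw [if_neg]
    exact fun h => hb h.1.symm
  · intro h
    exact absurd (Finset.mem_image_of_mem Y (Finset.mem_univ ω)) h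

end

theorem acta_thm : ACTAStmt := by
  classical
  intro Ω S _ p d N r om pt ρ hp hρ hN hom
  have hp0 := hp.nonneg
  have hN1 : (1 : ℝ) ≤ N := by exact_mod_cast hN
  have hlN : 0 ≤ Real.log N := Real.log_nonneg hN1
  have hlr : 0 ≤ Real.log (2 * r + 1) := Real.log_nonneg (by
    have : (0 : ℝ) ≤ r := Nat.cast_nonneg r
    linarith only)
  -- the centre of the ball
  have hex : ∀ s : S, (∃ ω, pt ω = s ∧ ¬ NAt p om pt ρ r ω) →
      ∃ v : Fin d → ℤ, (1 - ρ) * law p pt s <
        pr' p (fun ω' => pt ω' = s ∧ ∀ i, |om ω' i - v i| ≤ r) := by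
    rintro s ⟨ω, rfl, h⟩
    unfold NAt at h
    push Not at h
    exact h
  set v : S → Fin d → ℤ := fun s =>
    if h : ∃ ω, pt ω = s ∧ ¬ NAt p om pt ρ r ω then (hex s h).choose else 0 with hv
  have hvs : ∀ ω, ¬ NAt p om pt ρ r ω → (1 - ρ) * law p pt (pt ω) <
      pr' p (fun ω' => pt ω' = pt ω ∧ ∀ i, |om ω' i - v (pt ω) i| ≤ r) := by
    intro ω h
    have h1 : ∃ ω', pt ω' = pt ω ∧ ¬ NAt p om pt ρ r ω' := ⟨ω, rfl, h⟩
    have h2 := (hex (pt ω) h1).choose_spec
    simp only [hv]
    rw [dif_pos h1]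
    exact h2
  -- the indicator of the ball
  set Bl : Ω → Prop := fun ω => ¬ NAt p om pt ρ r ω ∧ ∀ i, |om ω i - v (pt ω) i| ≤ r with hBl
  set be : Ω → Bool := fun ω => decide (Bl ω) with hbe
  have h1 := CH_le_add hp0 om be pt
  have h2 : CH p be pt ≤ Real.log 2 := by
    have t := CH_le_card hp0 hp.sum_one be pt (fun _ => univ) (fun _ _ => Finset.mem_univ _)
    rw [Finset.card_univ, Fintype.card_bool, Ex_const hp.sum_one] at t
    exact_mod_cast t
  set Fs : Bool × S → Finset (Fin d → ℤ) := fun t => match t with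
    | (true, s) => Fintype.piFinset fun i => Finset.Icc (v s i - r) (v s i + r)
    | (false, _) => Fintype.piFinset fun _ => Finset.Ico (0 : ℤ) N with hFs
  have h3 : CH p om (fun ω => (be ω, pt ω)) ≤
      Ex p (fun ω => if Bl ω then d * Real.log (2 * r + 1) else d * Real.log N) := by
    have t := CH_le_card hp0 hp.sum_one om (fun ω => (be ω, pt ω)) Fs (by
        intro ω _
        by_cases hb : Bl ω
        · have e : be ω = true := decide_eq_true hb
          simp only [e, hFs]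
          rw [Fintype.mem_piFinset]
          intro i
          rw [Finset.mem_Icc]
          have h4 := hb.2 i
          rw [abs_le] at h4
          constructor <;> linarith only [h4, h4.1, h4.2]
        · have e : be ω = false := decide_eq_false hb
          simp only [e, hFs]
          rw [Fintype.mem_piFinset]
          intro i
          rw [Finset.mem_Ico]
          exact hom ω i)
    refine t.trans (Ex_mono hp0 fun ω _ => ?_)
    by_cases hb : Bl ω
    · have e : be ω = true := decide_eq_true hb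
      rw [if_pos hb]
      simp only [e, hFs]
      rw [Fintype.card_piFinset]
      have h5 : ∀ i : Fin d, (Finset.Icc (v (pt ω) i - r) (v (pt ω) i + r)).card = 2 * r + 1 := by
        intro i
        rw [Int.card_Icc]
        have h6 : v (pt ω) i + r + 1 - (v (pt ω) i - r) = ((2 * r + 1 : ℕ) : ℤ) := by
          push_cast
          ring
        rw [h6, Int.toNat_natCast]
      rw [Finset.prod_congr rfl fun i _ => h5 i, Finset.prod_const, Finset.card_univ,
        Fintype.card_fin]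
      push_cast
      rw [Real.log_pow]
    · have e : be ω = false := decide_eq_false hb
      rw [if_neg hb]
      simp only [e, hFs]
      rw [Fintype.card_piFinset, Finset.prod_const, Finset.card_univ, Fintype.card_fin,
        Int.card_Ico]
      simp only [sub_zero, Int.toNat_natCast]
      push_cast
      rw [Real.log_pow]
  -- the probability of the complement
  have h4 : Ex p (fun ω => if Bl ω then d * Real.log (2 * r + 1) else d * Real.log N) ≤
      d * Real.log (2 * r + 1) + pr' p (fun ω => ¬ Bl ω) * (d * Real.log N) := by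
    unfold Ex pr'
    rw [Finset.sum_mul]
    have key : ∀ ω, p ω * (if Bl ω then (d : ℝ) * Real.log (2 * r + 1) else d * Real.log N) ≤
        p ω * (d * Real.log (2 * r + 1)) + (if ¬ Bl ω then p ω else 0) * (d * Real.log N) := by
      intro ω
      have hpω := hp0 ω
      have hq1 : 0 ≤ p ω * (d * Real.log (2 * r + 1)) := by positivity
      by_cases hb : Bl ω
      · have e1 : (if Bl ω then (d : ℝ) * Real.log (2 * r + 1) else d * Real.log N) =
            d * Real.log (2 * r + 1) := if_pos hb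
        have e2 : (if ¬ Bl ω then p ω else 0) = 0 := if_neg (not_not.mpr hb)
        rw [e1, e2]
        linarith only
      · have e1 : (if Bl ω then (d : ℝ) * Real.log (2 * r + 1) else d * Real.log N) =
            d * Real.log N := if_neg hb
        have e2 : (if ¬ Bl ω then p ω else 0) = p ω := if_pos hb
        rw [e1, e2]
        linarith only [hq1]
    have key2 := Finset.sum_le_sum fun ω (_ : ω ∈ (univ : Finset Ω)) => key ω
    rw [Finset.sum_add_distrib, ← Finset.sum_mul, hp.sum_one, one_mul] at key2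
    refine key2.trans (le_of_eq ?_)
    congr 1
    refine Finset.sum_congr rfl fun ω _ => ?_
    by_cases hb : Bl ω
    · have e2 : (if ¬ Bl ω then p ω else 0) = 0 := if_neg (not_not.mpr hb)
      rw [e2]
      exact congrArg (fun z : ℝ => z * (d * Real.log N)) (if_neg (not_not.mpr hb)).symm
    · have e2 : (if ¬ Bl ω then p ω else 0) = p ω := if_pos hb
      rw [e2]
      exact congrArg (fun z : ℝ => z * (d * Real.log N)) (if_pos hb).symm
  have h5 : pr' p (fun ω => ¬ Bl ω) ≤ pr' p (NAt p om pt ρ r) + ρ := by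
    rw [pr'_fib p (fun ω => ¬ Bl ω) pt, pr'_fib p (NAt p om pt ρ r) pt]
    have h6 : ρ = ∑ s ∈ univ.image pt, ρ * law p pt s := by
      rw [← Finset.mul_sum, sum_law, hp.sum_one, mul_one]
    have key : ∑ s ∈ univ.image pt, pr' p (fun ω => pt ω = s ∧ ¬ Bl ω) ≤
        ∑ s ∈ univ.image pt, (pr' p (fun ω => pt ω = s ∧ NAt p om pt ρ r ω) +
          ρ * law p pt s) := by
      refine Finset.sum_le_sum fun s hs => ?_
      obtain ⟨ω₀, _, rfl⟩ := Finset.mem_image.mp hs
      have hinv : ∀ ω, pt ω = pt ω₀ → (NAt p om pt ρ r ω ↔ NAt p om pt ρ r ω₀) := by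
        intro ω h
        unfold NAt
        rw [h]
      have hlaw := law_nonneg hp0 pt (pt ω₀)
      by_cases hna : NAt p om pt ρ r ω₀
      · have h7 : pr' p (fun ω => pt ω = pt ω₀ ∧ ¬ Bl ω) ≤
            pr' p (fun ω => pt ω = pt ω₀ ∧ NAt p om pt ρ r ω) :=
          pr'_mono hp0 fun ω _ h => ⟨h.1, (hinv ω h.1).mpr hna⟩
        have h8 : 0 ≤ ρ * law p pt (pt ω₀) := mul_nonneg hρ hlaw
        linarith only [h7, h8]
      · have h7 := hvs ω₀ hna
        have h8 := pr'_add p (fun ω => pt ω = pt ω₀) Bl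
        have h9 : pr' p (fun ω' => pt ω' = pt ω₀ ∧ ∀ i, |om ω' i - v (pt ω₀) i| ≤ r) ≤
            pr' p (fun ω => pt ω = pt ω₀ ∧ Bl ω) := by
          refine pr'_mono hp0 fun ω _ h => ⟨h.1, ?_, ?_⟩
          · exact fun hn => hna ((hinv ω h.1).mp hn)
          · rw [h.1]
            exact h.2
        rw [← law_eq_pr'] at h8
        have h10 := pr'_nonneg hp0 (fun ω => pt ω = pt ω₀ ∧ NAt p om pt ρ r ω)
        linarith only [h7, h8, h9, h10]
    rw [Finset.sum_add_distrib, ← h6] at key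
    exact key
  have h6 : pr' p (fun ω => ¬ Bl ω) * (d * Real.log N) ≤
      (pr' p (NAt p om pt ρ r) + ρ) * (d * Real.log N) :=
    mul_le_mul_of_nonneg_right h5 (by positivity)
  linarith only [h1, h2, h3, h4, h6]

theorem actb_thm : ACTBStmt := by
  classical
  intro m J F k n
  have hp := F.isLaw
  have hp0 := hp.nonneg
  have hstep : ∀ i, CH F.p (F.D (k * (i + 1))) (fun ω => (F.D (k * i) ω, (F.X J ω, F.W ω))) ≤
      m * (k * Real.log 2) := by
    intro i
    have h := TRC.CH_floor hp F.d (fun ω => (F.X J ω, F.W ω)) (k * i) k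
    have e : k * i + k = k * (i + 1) := by ring
    rw [e] at h
    exact h
  refine ⟨hstep, ?_⟩
  have key : ∀ n, CH F.p (F.D (k * n)) (fun ω => (F.X J ω, F.W ω)) ≤ m * Real.log 3 +
      ∑ i ∈ range n, CH F.p (F.D (k * (i + 1))) (fun ω => (F.D (k * i) ω, (F.X J ω, F.W ω))) := by
    intro n
    induction n with
    | zero =>
      rw [Finset.range_zero, Finset.sum_empty, add_zero]
      have t := CH_le_card hp0 hp.sum_one (F.D (k * 0)) (fun ω => (F.X J ω, F.W ω))
        (fun _ => Fintype.piFinset fun _ => Finset.Icc (-1 : ℤ) 1) (by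
          intro ω _
          rw [Fintype.mem_piFinset]
          intro i
          have h1 := abs_le.mp (F.dir ω i)
          have h2 : F.D (k * 0) ω i = ⌊F.d ω i⌋ := by
            show ⌊(2 : ℝ) ^ (k * 0) * F.d ω i⌋ = _
            rw [mul_zero, pow_zero, one_mul]
          rw [h2, Finset.mem_Icc]
          constructor
          · rw [Int.le_floor]
            push_cast
            exact h1.1
          · have : (⌊F.d ω i⌋ : ℝ) ≤ 1 := (Int.floor_le _).trans h1.2
            exact_mod_cast this)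
      refine t.trans (le_of_eq ?_)
      rw [Ex_const hp.sum_one, Fintype.card_piFinset, Finset.prod_const, Finset.card_univ,
        Fintype.card_fin]
      have : (Finset.Icc (-1 : ℤ) 1).card = 3 := by simp
      rw [this]
      push_cast
      rw [Real.log_pow]
    | succ n ih =>
      rw [Finset.sum_range_succ]
      have h1 := CH_le_add hp0 (F.D (k * (n + 1))) (F.D (k * n)) (fun ω => (F.X J ω, F.W ω))
      linarith only [ih, h1]
  exact key n

theorem actd_thm : ACTDStmt := by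
  classical
  intro Ω β _ p b E ρ n hp hdet hρ
  have hp0 := hp.nonneg
  -- nested labels
  have hnest : ∀ i j, i ≤ j → Det p (b j) (b i) := by
    intro i j hij
    induction hij with
    | refl => exact fun _ _ _ _ h => h
    | step _ ih => exact fun ω ω' a c h => ih ω ω' a c (hdet _ ω ω' a c h)
  -- stopping events
  set St : ℕ → Ω → Prop := fun i ω => cpE p E (b i) ω < ρ ∧ ∀ j < i, ¬ cpE p E (b j) ω < ρ
    with hSt
  have hcpE : ∀ i ω ω', b i ω = b i ω' → cpE p E (b i) ω = cpE p E (b i) ω' := by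
    intro i ω ω' h
    unfold cpE
    rw [h]
  have hStdet : ∀ i ω ω', 0 < p ω → 0 < p ω' → b i ω = b i ω' → (St i ω ↔ St i ω') := by
    intro i ω ω' h h' hb
    simp only [hSt]
    rw [hcpE i ω ω' hb]
    constructor
    · rintro ⟨h1, h2⟩
      refine ⟨h1, fun j hj => ?_⟩
      rw [← hcpE j ω ω' (hnest j i hj.le ω ω' h h' hb)]
      exact h2 j hj
    · rintro ⟨h1, h2⟩
      refine ⟨h1, fun j hj => ?_⟩
      rw [hcpE j ω ω' (hnest j i hj.le ω ω' h h' hb)]
      exact h2 j hj
  -- one stopping event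
  have hone : ∀ i, pr' p (fun ω => E ω ∧ St i ω) ≤ ρ * pr' p (St i) := by
    intro i
    rw [pr'_fib p (fun ω => E ω ∧ St i ω) (b i), pr'_fib p (St i) (b i), Finset.mul_sum]
    refine Finset.sum_le_sum fun s _ => ?_
    by_cases hpos : ∃ ω, 0 < p ω ∧ b i ω = s ∧ St i ω
    · obtain ⟨ω₀, h0, rfl, hst⟩ := hpos
      have hl : 0 < law p (b i) (b i ω₀) := law_pos hp0 _ h0
      have h1 : cpE p E (b i) ω₀ < ρ := hst.1
      unfold cpE at h1
      rw [div_lt_iff₀ hl] at h1
      have h2 : pr' p (fun ω => b i ω = b i ω₀ ∧ E ω ∧ St i ω) ≤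
          pr' p (fun w => b i w = b i ω₀ ∧ E w) :=
        pr'_mono hp0 fun ω _ h => ⟨h.1, h.2.1⟩
      have h3 : pr' p (fun ω => b i ω = b i ω₀ ∧ St i ω) = law p (b i) (b i ω₀) := by
        rw [law_eq_pr']
        exact pr'_congr hp0 fun ω h4 =>
          ⟨fun h => h.1, fun h => ⟨h, (hStdet i ω ω₀ h4 h0 h).mpr hst⟩⟩
      rw [h3]
      linarith only [h1, h2]
    · push Not at hpos
      have h2 : pr' p (fun ω => b i ω = s ∧ E ω ∧ St i ω) ≤ pr' p (fun _ : Ω => False) :=
        pr'_mono hp0 fun ω h4 h => hpos ω h4 h.1 h.2.2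
      have h3 : pr' p (fun _ : Ω => False) = 0 := by
        unfold pr'
        exact Finset.sum_eq_zero fun ω _ => if_neg not_false
      have h4 := mul_nonneg hρ (pr'_nonneg hp0 (fun ω => b i ω = s ∧ St i ω))
      linarith only [h2, h3, h4]
  -- sum
  have hsum : pr' p (fun ω => E ω ∧ ∃ i < n, cpE p E (b i) ω < ρ) ≤
      ∑ i ∈ range n, pr' p (fun ω => E ω ∧ St i ω) := by
    unfold pr'
    rw [Finset.sum_comm]
    refine Finset.sum_le_sum fun ω _ => ?_
    have hpω := hp0 ω
    have hnn : ∀ i ∈ range n, 0 ≤ (if E ω ∧ St i ω then p ω else 0) := by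
      intro i _
      split_ifs <;> linarith
    by_cases hE : E ω ∧ ∃ i < n, cpE p E (b i) ω < ρ
    · refine (le_of_eq (if_pos hE)).trans ?_
      obtain ⟨hE1, hex⟩ := hE
      have hfind := Nat.find_spec hex
      have hmin : ∀ j < Nat.find hex, ¬ cpE p E (b j) ω < ρ := by
        intro j hj hcon
        exact Nat.find_min hex hj ⟨hj.trans hfind.1, hcon⟩
      have h1 := Finset.single_le_sum hnn (Finset.mem_range.mpr hfind.1)
      have h2 : E ω ∧ St (Nat.find hex) ω := ⟨hE1, hfind.2, hmin⟩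
      rw [if_pos h2] at h1
      refine h1.trans (le_of_eq (Finset.sum_congr rfl fun i _ => ?_))
      by_cases hh : E ω ∧ St i ω
      · rw [if_pos hh, if_pos hh]
      · rw [if_neg hh, if_neg hh]
    · refine (le_of_eq (if_neg hE)).trans ?_
      refine Finset.sum_nonneg fun i _ => ?_
      split_ifs <;> linarith
  have hdisj : ∑ i ∈ range n, pr' p (St i) ≤ 1 := by
    unfold pr'
    rw [Finset.sum_comm, ← hp.sum_one]
    refine Finset.sum_le_sum fun ω _ => ?_
    have hpω := hp0 ω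
    by_cases hex : ∃ i ∈ range n, St i ω
    · obtain ⟨i, hi, hst⟩ := hex
      rw [Finset.sum_eq_single i]
      · rw [if_pos hst]
      · intro j _ hji
        rw [if_neg]
        intro hst'
        rcases lt_or_gt_of_ne hji with h | h
        · exact hst.2 j h hst'.1
        · exact hst'.2 i h hst.1
      · intro h
        exact absurd hi h
    · push Not at hex
      rw [Finset.sum_eq_zero]
      · exact hpω
      · intro i hi
        rw [if_neg (hex i hi)]
  calc pr' p (fun ω => E ω ∧ ∃ i < n, cpE p E (b i) ω < ρ) ≤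
      ∑ i ∈ range n, pr' p (fun ω => E ω ∧ St i ω) := hsum
    _ ≤ ∑ i ∈ range n, ρ * pr' p (St i) := Finset.sum_le_sum fun i _ => hone i
    _ = ρ * ∑ i ∈ range n, pr' p (St i) := by rw [Finset.mul_sum]
    _ ≤ ρ * 1 := mul_le_mul_of_nonneg_left hdisj hρ
    _ = ρ := mul_one ρ

theorem acte_thm : ACTEStmt := by
  classical
  intro Ω S _ p d r om pt ρ A hp hA
  have hp0 := hp.nonneg
  unfold pr'
  rw [Fintype.sum_prod_type, Finset.mul_sum]
  refine Finset.sum_le_sum fun ω _ => ?_
  have hcpy0 : ∀ ω', 0 ≤ cpy p pt (ω, ω') := by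
    intro ω'
    unfold cpy
    split_ifs
    · exact div_nonneg (mul_nonneg (hp0 _) (hp0 _)) (law_nonneg hp0 _ _)
    · exact le_rfl
  have hR : 0 ≤ ∑ ω', (if A (ω, ω').1 ∧ ∃ i, (r : ℤ) < |om (ω, ω').2 i - om (ω, ω').1 i|
      then cpy p pt (ω, ω') else 0) := by
    refine Finset.sum_nonneg fun ω' _ => ?_
    have := hcpy0 ω'
    split_ifs <;> linarith
  rcases (hp0 ω).eq_or_lt with h0 | h0
  · rw [← h0]
    simp only [ite_self, mul_zero]
    refine Finset.sum_nonneg fun ω' _ => ?_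
    have := hcpy0 ω'
    split_ifs <;> linarith
  by_cases hAω : A ω
  swap
  · rw [if_neg hAω, mul_zero]
    refine Finset.sum_nonneg fun ω' _ => ?_
    have := hcpy0 ω'
    split_ifs <;> linarith
  rw [if_pos hAω]
  have hl : 0 < law p pt (pt ω) := law_pos hp0 _ h0
  have hna := hA ω h0 hAω (om ω)
  have hadd := pr'_add p (fun ω' => pt ω' = pt ω) (fun ω' => ∀ i, |om ω' i - om ω i| ≤ r)
  rw [← law_eq_pr'] at hadd
  have h2 : ρ * law p pt (pt ω) ≤
      pr' p (fun ω' => pt ω' = pt ω ∧ ¬ ∀ i, |om ω' i - om ω i| ≤ r) := by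
    linarith
  have h3 : p ω / law p pt (pt ω) *
      pr' p (fun ω' => pt ω' = pt ω ∧ ¬ ∀ i, |om ω' i - om ω i| ≤ r) ≤
      ∑ ω', (if A (ω, ω').1 ∧ ∃ i, (r : ℤ) < |om (ω, ω').2 i - om (ω, ω').1 i|
      then cpy p pt (ω, ω') else 0) := by
    unfold pr'
    rw [Finset.mul_sum]
    refine Finset.sum_le_sum fun ω' _ => ?_
    by_cases hh : pt ω' = pt ω ∧ ¬ ∀ i, |om ω' i - om ω i| ≤ r
    · refine (le_of_eq (congrArg _ (if_pos hh))).trans ?_
      have h4 : A ω ∧ ∃ i, (r : ℤ) < |om ω' i - om ω i| := by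
        refine ⟨hAω, ?_⟩
        have := hh.2
        push Not at this
        exact this
      refine le_trans (le_of_eq ?_) (le_of_eq (if_pos h4).symm)
      unfold cpy
      rw [if_pos hh.1.symm]
      ring
    · refine (le_of_eq (congrArg _ (if_neg hh))).trans ?_
      rw [mul_zero]
      have := hcpy0 ω'
      split_ifs <;> linarith
  have hne := hl.ne'
  calc ρ * p ω = p ω / law p pt (pt ω) * (ρ * law p pt (pt ω)) := by
        rw [div_mul_eq_mul_div, eq_div_iff hne]
        ring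
    _ ≤ p ω / law p pt (pt ω) *
      pr' p (fun ω' => pt ω' = pt ω ∧ ¬ ∀ i, |om ω' i - om ω i| ≤ r) :=
        mul_le_mul_of_nonneg_left h2 (by positivity)
    _ ≤ _ := h3.trans (le_of_eq (Finset.sum_congr rfl fun ω' _ => by
        by_cases hh : A ω ∧ ∃ i, (r : ℤ) < |om ω' i - om ω i|
        · exact (if_pos hh).trans (if_pos hh).symm
        · exact (if_neg hh).trans (if_neg hh).symm))

theorem actc_thm : ACTCStmt := by
  classical
  intro m a R hm ha hR hU x hx
  have ha0 : 0 < a := by linarith only [ha]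
  have hmr : (1 : ℝ) ≤ m := by exact_mod_cast hm
  have hm0 : (0 : ℝ) < m := by linarith only [hmr]
  have hl2 : 0 < Real.log 2 := Real.log_pos one_lt_two
  have hl3 : 0 ≤ Real.log 3 := Real.log_nonneg (by norm_num)
  obtain ⟨C, hC, h2⟩ := ap2_thm aop_thm m
  set η : ℝ := R * x / 32 with hη
  have hη0 : 0 < η := by positivity
  obtain ⟨θ, hθ, J₀, h3⟩ := tub_Ga_le tub_thm hU hη0 (show (0 : ℝ) < 1 / 4 by norm_num)
  set B : ℝ := R + 2 * a * C + a * (m * Real.log 3) with hB
  have hB0 : 0 ≤ B := by positivity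
  refine ⟨min (min η θ) (R * x / (32 * a)), lt_min (lt_min hη0 hθ) (by positivity),
    max J₀ ⌈8 * B / (R * x)⌉₊, ?_⟩
  set τ : ℝ := min (min η θ) (R * x / (32 * a)) with hτ
  have hτ1 : τ ≤ η := (min_le_left _ _).trans (min_le_left _ _)
  have hτ2 : τ ≤ θ := (min_le_left _ _).trans (min_le_right _ _)
  have hτ3 : τ ≤ R * x / (32 * a) := min_le_right _ _
  have hτ4 : a * τ ≤ R * x / 32 := by
    rw [le_div_iff₀ (by positivity)] at hτ3
    linarith only [hτ3]
  intro J hJ F hF k n hk hkn hknJ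
  have hJ0 : J₀ ≤ J := (le_max_left _ _).trans hJ
  have hJ1 : 8 * B / (R * x) ≤ J := (Nat.le_ceil _).trans
    (by exact_mod_cast (le_max_right _ _).trans hJ)
  rw [div_le_iff₀ (by positivity)] at hJ1
  have hJr : (0 : ℝ) ≤ J := Nat.cast_nonneg J
  have hkr : (1 : ℝ) ≤ k := by exact_mod_cast hk
  have hnr : (0 : ℝ) ≤ n := Nat.cast_nonneg n
  have hknr : ((k * n : ℕ) : ℝ) = (k : ℝ) * n := by push_cast; ring
  have hknJ' : (k : ℝ) * n ≤ J := by rw [← hknr]; exact_mod_cast hknJ
  obtain ⟨hT, hG⟩ := hF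
  have hp := F.isLaw
  have hp0 := hp.nonneg
  -- the coarser scale
  set q : ℕ := 3 * (k * n) / 4 with hq
  have hqkn : q ≤ k * n := by omega
  have hqJ : q ≤ J := hqkn.trans hknJ
  have hq4 : 3 * (k * n) ≤ 4 * q + 4 := by omega
  have hq4' : 4 * q ≤ 3 * (k * n) := by omega
  have hq4r : (3 : ℝ) * (k * n) ≤ 4 * q + 4 := by exact_mod_cast hq4
  have hq4r' : (4 : ℝ) * q ≤ 3 * (k * n) := by exact_mod_cast hq4'
  have hTθ : F.Tm (θ * J) := by
    unfold Fam.Tm at hT ⊢
    have := mul_le_mul_of_nonneg_right hτ2 hJr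
    linarith only [hT, this]
  have hub := h3 J hJ0 F hTθ q hqJ (by linarith only [hknJ', hq4r'])
  have hGη : (R - η) * J ≤ F.Ga a := by
    refine le_trans (mul_le_mul_of_nonneg_right ?_ hJr) hG
    linarith only [hτ1]
  have h9 := h2 J q hqJ F a R η (τ * J) ha hη0.le hT hGη hub
  have h10 : 0 ≤ (a - 1) * CH F.p (F.L q) F.Z := mul_nonneg (by linarith only [ha]) (CH_nonneg hp0 _ _)
  have h11 : 0 ≤ CH F.p (F.L q) (fun ω => (F.D J ω, F.Z ω)) := CH_nonneg hp0 _ _
  have h12 : CH F.p (F.D q) (fun ω => (F.X J ω, F.W ω)) ≤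
      CH F.p (F.D (k * n)) (fun ω => (F.X J ω, F.W ω)) :=
    CH_mono_left hp0 fun ω ω' _ _ h => fl_coarse hqkn (Prod.ext_iff.1 h).1
  obtain ⟨hb1, hb2⟩ := actb_thm m J F k n
  set h : ℕ → ℝ := fun i =>
    CH F.p (F.D (k * (i + 1))) (fun ω => (F.D (k * i) ω, (F.X J ω, F.W ω))) with hh
  have hb1' : ∀ i, h i ≤ m * (k * Real.log 2) := hb1
  have hb2' : CH F.p (F.D (k * n)) (fun ω => (F.X J ω, F.W ω)) ≤ m * Real.log 3 +
      ∑ i ∈ range n, h i := hb2
  -- the sum is large
  have h13 : R / 2 * (k * n) ≤ a * ∑ i ∈ range n, h i := by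
    have e1 : R * q ≤ a * (m * Real.log 3 + ∑ i ∈ range n, h i) + 2 * η * J +
        2 * a * (τ * J + C) := by
      have e2 := mul_le_mul_of_nonneg_left (h12.trans hb2') ha0.le
      linarith only [h9, h10, h11, e2]
    have e3 : R * (3 * (k * n)) ≤ R * (4 * q + 4) := mul_le_mul_of_nonneg_left hq4r hR.le
    have e4 : R * (x * J) ≤ R * (k * n) := mul_le_mul_of_nonneg_left hkn hR.le
    have e5 : a * τ * J ≤ R * x / 32 * J := mul_le_mul_of_nonneg_right hτ4 hJr
    have e6 : η * J = R * x / 32 * J := rfl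
    nlinarith only [hJ1, e1, e3, e4, e5, e6, e1, e3, e4, e5, e6, hJ1, hB]
  -- counting
  set G := (range n).filter fun i => R / (4 * a) * k ≤ h i with hG'
  have hsum : ∑ i ∈ range n, h i ≤ G.card * (m * (k * Real.log 2)) + n * (R / (4 * a) * k) := by
    rw [← Finset.sum_filter_add_sum_filter_not (range n) (fun i => R / (4 * a) * k ≤ h i)]
    refine add_le_add ?_ ?_
    · calc ∑ i ∈ G, h i ≤ ∑ _i ∈ G, (m : ℝ) * (k * Real.log 2) :=
            Finset.sum_le_sum fun i _ => hb1' i
        _ = _ := by rw [Finset.sum_const, nsmul_eq_mul]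
    · have hc : ((range n).filter fun i => ¬ R / (4 * a) * k ≤ h i).card ≤ n := by
        refine (Finset.card_filter_le _ _).trans ?_
        rw [Finset.card_range]
      calc ∑ i ∈ (range n).filter (fun i => ¬ R / (4 * a) * k ≤ h i), h i ≤
            ∑ _i ∈ (range n).filter (fun i => ¬ R / (4 * a) * k ≤ h i), R / (4 * a) * (k : ℝ) :=
            Finset.sum_le_sum fun i hi => (not_le.mp (Finset.mem_filter.mp hi).2).le
        _ = ((range n).filter fun i => ¬ R / (4 * a) * k ≤ h i).card * (R / (4 * a) * (k : ℝ)) := by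
            rw [Finset.sum_const, nsmul_eq_mul]
        _ ≤ n * (R / (4 * a) * k) :=
            mul_le_mul_of_nonneg_right (by exact_mod_cast hc) (by positivity)
  have hgoal : R / (4 * a * m * Real.log 2) * n ≤ G.card := by
    rw [div_mul_eq_mul_div, div_le_iff₀ (by positivity)]
    have e1 : a * ∑ i ∈ range n, h i ≤
        a * (G.card * (m * (k * Real.log 2)) + n * (R / (4 * a) * k)) :=
      mul_le_mul_of_nonneg_left hsum ha0.le
    have e2 : a * (n * (R / (4 * a) * k)) = R / 4 * (k * n) := by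
      field_simp
    have e3 : R / 4 * (k * n) ≤ a * (G.card * (m * (k * Real.log 2))) := by
      rw [mul_add, e2] at e1
      linarith only [h13, e1]
    have e4 : (k : ℝ) * (R * n) ≤ k * (G.card * (4 * a * m * Real.log 2)) := by
      nlinarith only [h13, e1, e2, e3]
    exact le_of_mul_le_mul_left e4 (by linarith only [hkr])
  exact hgoal

end Pool.KA
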