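import Pool.Agent.H35.K2S.LineU
import Pool.Agent.H13.K2S.Lin

/-!
# Directions near one line in every cell: the frame is known from the window

If the directions in every cell `L` lie near one line, and the cell is almost a function of the
window, then the frames of the exact points are known from the window.
-/

set_option autoImplicit false

namespace Pool.K2S

open Finset Real
open Pool.Agent.H49.Ent Pool.Agent.H32.Dense Pool.STK Pool.KA

variable {Ω U V Λ : Type} [Fintype Ω] {m : ℕ}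

/-- The directions in the cells `L` lie within `r` of a line (no bound on the slopes), as a
property of the form `Fn`. -/
def LineC (i₀ : Fin m) (r : ℝ) (L : Ω → Λ) (d : Ω → Fin m → ℝ) : (Ω → Prop) → Prop :=
  Fn d L (fun D (s : (Fin m → ℝ) × (Fin m → ℝ)) => ∀ j, |D j - s.1 j * D i₀ - s.2 j| ≤ r)

omit [Fintype Ω] in
theorem LineC.hered (i₀ : Fin m) (r : ℝ) (L : Ω → Λ) (d : Ω → Fin m → ℝ) :
    Hered (LineC i₀ r L d) := Fn.hered _ _ _

/-- **From the cells to the windows.** -/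
theorem LineC.rotU {p : Ω → ℝ} (hp : IsLaw p) {κ δ r r₀ r₁ r₂ ρ : ℝ} {A : Ω → Prop}
    (hA : 0 < Pe p A) {i₀ : Fin m} {pt : Ω → U} {wn : Ω → V} {d : Ω → Fin m → ℝ} {L : Ω → Λ}
    {e₀ n₀ e n : U → Fin m → ℝ}
    (hb : Stb p κ A (Ball r pt d)) (hbn : ¬ Ball r pt d A)
    (h₀ : IsFrame i₀ r₀ pt d A e₀ n₀) (h₁ : OnL i₀ r₁ pt d A e n)
    (hC : LineC i₀ r₂ L d A) (hδ : 0 < δ)
    (hpt : ∀ B : Ω → Prop, Sub B A → 0 < Pe p B →
      CH (Pool.Agent.H49.Ent.cond p B True) L pt ≤ δ)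
    (hwn : ∀ B : Ω → Prop, Sub B A → 0 < Pe p B →
      CH (Pool.Agent.H49.Ent.cond p B True) L wn ≤ δ)
    (hr : 0 < r - 2 * r₀) (hρ : (2 * r₁ + 2 * r₂) / (r - 2 * r₀) ≤ ρ)
    (hs : Stb p κ A (RotU i₀ r₁ ρ pt wn d)) (hκ : 2 * δ + 2 * Real.log 2 ≤ κ) :
    RotU i₀ r₁ ρ pt wn d A := by
  classical
  have hl2 : 0 < Real.log 2 := Real.log_pos one_lt_two
  -- the fans of the refined points are spread
  obtain ⟨s1, s2⟩ := Stb.refine hp hb hbn hA hδ hpt (by linarith)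
  have hthin := Stb.thin_lt (pt := fun ω => (pt ω, L ω)) s1 s2
  obtain ⟨A', hA'⟩ : ∃ A' : Ω → Prop, A' = fun ω => A ω ∧ ¬ Thin r (fun ω => (pt ω, L ω)) d A ω :=
    ⟨_, rfl⟩
  have hhalf : Real.exp (-(κ - (2 * δ + Real.log 2))) ≤ 1 / 2 := by
    have h1 : (1 / 2 : ℝ) = Real.exp (-Real.log 2) := by
      rw [Real.exp_neg, Real.exp_log (by norm_num)]
      norm_num
    rw [h1]
    exact Real.exp_le_exp.2 (by linarith)
  have hN : Pe p (fun ω => A ω ∧ Thin r (fun ω => (pt ω, L ω)) d A ω) ≤ Pe p A / 2 := by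
    refine hthin.le.trans ?_
    calc _ ≤ 1 / 2 * Pe p A := mul_le_mul_of_nonneg_right hhalf hA.le
      _ = _ := by ring
  have hPA' : Real.exp (-Real.log 2) * Pe p A ≤ Pe p A' := by
    rw [hA']
    exact Pe_diff hN
  have hA'0 : 0 < Pe p A' := lt_of_lt_of_le (mul_pos (Real.exp_pos _) hA) hPA'
  have hsub : Sub A' A := by
    rw [hA']
    exact fun ω h => h.1
  have hspread : Spread r (fun ω => (pt ω, L ω)) d A' := by
    rw [hA']
    exact spread_of_not_thin r (fun ω => (pt ω, L ω)) d A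
  have hfr : IsFrame i₀ r₀ (fun ω => (pt ω, L ω)) d A' (fun u => e₀ u.1) (fun u => n₀ u.1) :=
    ⟨fun ω hω => h₀.bound ω (hsub ω hω), fun ω hω => h₀.line ω (hsub ω hω)⟩
  have hsi := hfr.spreadI hspread
  have ho1 : OnL i₀ r₁ (fun ω => (pt ω, L ω)) d A' (fun u => e u.1) (fun u => n u.1) :=
    fun ω hω => h₁ ω (hsub ω hω)
  obtain ⟨s, hsC⟩ := hC
  have ho2 : OnL i₀ r₂ (fun ω => (pt ω, L ω)) d A' (fun u => (s u.2).1) (fun u => (s u.2).2) :=
    fun ω hω => hsC ω (hsub ω hω)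
  have hclose : ∀ ω, A' ω → ∀ j, |e (pt ω) j - (s (L ω)).1 j| ≤ ρ := by
    intro ω hω j
    exact (ho1.unique ho2 hsi hr ω hω j).trans hρ
  -- the most likely cell of the window
  have hne : Nonempty Ω := by
    by_contra h
    rw [not_nonempty_iff] at h
    have : Pe p A = 0 := by rw [Pe_eq]; exact Finset.sum_of_isEmpty _
    linarith
  have hneL : Nonempty Λ := ⟨L (Classical.arbitrary Ω)⟩
  obtain ⟨ζ, hζ⟩ := exists_fns_of_CH (n := 1) (S := fun _ => Λ) (T := fun _ => V)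
    (isLaw_cond hp hA'0) (fun _ => L) (fun _ => wn) hδ (fun _ => hwn A' hsub hA'0)
  rw [Pe_cond, le_div_iff₀ hA'0] at hζ
  have hPB : Real.exp (-κ) * Pe p A ≤ Pe p (fun ω => A' ω ∧ ∀ i : Fin 1, L ω = ζ i (wn ω)) := by
    refine le_trans ?_ hζ
    have e1 : Real.exp (-κ) ≤ Real.exp (-(2 * ((1 : ℕ) : ℝ) ^ 2 * δ)) / 2 *
        Real.exp (-Real.log 2) := by
      have e2 : Real.exp (-(2 * ((1 : ℕ) : ℝ) ^ 2 * δ)) / 2 * Real.exp (-Real.log 2) =
          Real.exp (-(2 * δ + 2 * Real.log 2)) := by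
        rw [show -(2 * δ + 2 * Real.log 2) = -(2 * ((1 : ℕ) : ℝ) ^ 2 * δ) + (-Real.log 2) +
          (-Real.log 2) by push_cast; ring, Real.exp_add, Real.exp_add,
          Real.exp_neg (Real.log 2), Real.exp_log (by norm_num : (0 : ℝ) < 2)]
        ring
      rw [e2]
      exact Real.exp_le_exp.2 (by linarith)
    calc Real.exp (-κ) * Pe p A ≤ (Real.exp (-(2 * ((1 : ℕ) : ℝ) ^ 2 * δ)) / 2 *
          Real.exp (-Real.log 2)) * Pe p A := mul_le_mul_of_nonneg_right e1 hA.le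
      _ = Real.exp (-(2 * ((1 : ℕ) : ℝ) ^ 2 * δ)) / 2 * (Real.exp (-Real.log 2) * Pe p A) := by
          ring
      _ ≤ _ := mul_le_mul_of_nonneg_left hPA' (by positivity)
  refine hs.of_sub (B := fun ω => A' ω ∧ ∀ i : Fin 1, L ω = ζ i (wn ω))
    (fun ω hω => hsub ω hω.1) hPB ⟨e, n, fun v => (s (ζ 0 v)).1, ?_, ?_⟩
  · exact h₁.sub fun ω hω => hsub ω hω.1
  · intro ω hω j
    have h1 := hclose ω hω.1 j
    rw [hω.2 0] at h1
    exact h1

/-- The form in which it is used: if the frames are not known from the window, the directions in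
the cells are nonconcentrated on lines. -/
theorem not_lineC {p : Ω → ℝ} (hp : IsLaw p) {κ δ r r₀ r₁ r₂ ρ : ℝ} {A : Ω → Prop}
    (hA : 0 < Pe p A) {i₀ : Fin m} {pt : Ω → U} {wn : Ω → V} {d : Ω → Fin m → ℝ} {L : Ω → Λ}
    {e₀ n₀ e n : U → Fin m → ℝ}
    (hb : Stb p κ A (Ball r pt d)) (hbn : ¬ Ball r pt d A)
    (h₀ : IsFrame i₀ r₀ pt d A e₀ n₀) (h₁ : OnL i₀ r₁ pt d A e n) (hδ : 0 < δ)
    (hpt : ∀ B : Ω → Prop, Sub B A → 0 < Pe p B →
      CH (Pool.Agent.H49.Ent.cond p B True) L pt ≤ δ)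
    (hwn : ∀ B : Ω → Prop, Sub B A → 0 < Pe p B →
      CH (Pool.Agent.H49.Ent.cond p B True) L wn ≤ δ)
    (hr : 0 < r - 2 * r₀) (hρ : (2 * r₁ + 2 * r₂) / (r - 2 * r₀) ≤ ρ)
    (hs : Stb p κ A (RotU i₀ r₁ ρ pt wn d)) (hn : ¬ RotU i₀ r₁ ρ pt wn d A)
    (hκ : 2 * δ + 2 * Real.log 2 ≤ κ) : ¬ LineC i₀ r₂ L d A :=
  fun hC => hn (hC.rotU hp hA hb hbn h₀ h₁ hδ hpt hwn hr hρ hs hκ)

end Pool.K2S
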