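import Pool.Agent.H45.K2.PLR

/-!
# Plateaus of the frame: all the rows are full

If the frame of the exact points is known to precision `lam` from the windows `w`, but is not known
to precision `lam + hh` from the windows `w + x`, then the rows `(w + lam, w + lam + x]` of the
positions are full (in both directions).
-/

set_option autoImplicit false

namespace Pool.K2S

open Finset Real
open Pool.Agent.H49.Ent Pool.Agent.H32.Dense Pool.STK Pool.KA Pool.KA.Win Pool.KA.TRC Rows FF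

/-- There is a frame of the windows `w`, with precision `lam`, such that the directions in the
cells of its planks (up to the windows `w + x`) lie within `r` of lines. -/
def PlC {J : ℕ} (F : Fam 2 J) (i₀ : Fin 2) (w lam x N q : ℕ) (b r : ℝ) (A : F.Ω → Prop) : Prop :=
  ∃ (e n : (Fin 2 → ℤ) × (ℕ × F.ζ) → Fin 2 → ℝ)
    (ζ : ((Fin 2 → ℝ) × (Fin 2 → ℝ)) × (ℕ × F.ζ) → Fin 2 → ℝ),
    OnL i₀ ((2 : ℝ) ^ lam)⁻¹ (Fam.pt F) F.d A e n ∧
    (∀ v j, ∃ k : ℤ, ζ v j = k / 2 ^ lam) ∧ (∀ v j, |ζ v j| ≤ b) ∧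
    (∀ ω, A ω → ∀ j, |e (Fam.pt F ω) j - ζ (wnd F w ω) j| ≤ q * ((2 : ℝ) ^ lam)⁻¹) ∧
    LineC i₀ r (plC (F.plk w lam i₀ (fun ω => ζ (wnd F w ω))) (x / N) N) F.d A

theorem PlC.hered {J : ℕ} (F : Fam 2 J) (i₀ : Fin 2) (w lam x N q : ℕ) (b r : ℝ) :
    Hered (PlC F i₀ w lam x N q b r) := by
  rintro A B h ⟨e, n, ζ, h1, h2, h3, h4, h5⟩
  exact ⟨e, n, ζ, h1.sub h, h2, h3, fun ω hω => h4 ω (h ω hω),
    LineC.hered _ _ _ _ A B h h5⟩

/-- The bound for the entropies of the labels, given the exact point. -/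
noncomputable def plcδ (q : ℕ) (b : ℝ) (N N₂ : ℕ) : ℝ :=
  (2 * N + 4) * (2 * Real.log (4 * q + 1) + 2 * Real.log (4 * q + 7) +
    2 * Real.log (4 * q + 2 * b + 9)) + (2 * Real.log (2 * b + 5) + 2 * Real.log 3) +
    cc 2 + (N₂ + 1) * cc 1 + 1

theorem cc_nonneg (m : ℕ) : 0 ≤ cc m := by
  unfold cc
  exact mul_nonneg (by positivity) (Real.log_nonneg (by norm_num))

/-- The removed event is exponentially small. -/
theorem Stb.clean_exp {Ω S S' T : Type} [Fintype Ω] {p : Ω → ℝ} (hp : IsLaw p) {κ : ℝ}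
    {A : Ω → Prop} (hA : 0 < Pe p A) {c : Ω → S'} {g : Ω → T} {r : S' → S → Prop} [Nonempty S]
    (hs : Stb p κ A (Fn c g r)) (hn : ¬ Fn c g r A) {N : Ω → Prop}
    (hN : N = Pop (Pool.Agent.H49.Ent.cond p A True) c g r (Real.exp (-(κ / 2)))) :
    Pe p (fun ω => A ω ∧ N ω) ≤ Real.exp (-(κ / 2)) * Pe p A := by
  have := hs.point hp hA hn
  rw [Pe_cond, div_le_iff₀ hA] at this
  rw [hN]
  exact this

theorem Pe_diff_ge {Ω : Type} [Fintype Ω] {p : Ω → ℝ} {A N : Ω → Prop} {x : ℝ}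
    (h : Pe p (fun ω => A ω ∧ N ω) ≤ x * Pe p A) :
    (1 - x) * Pe p A ≤ Pe p (fun ω => A ω ∧ ¬ N ω) := by
  classical
  have key : Pe p A = Pe p (fun ω => A ω ∧ N ω) + Pe p (fun ω => A ω ∧ ¬ N ω) := by
    rw [Pe_eq, Pe_eq, Pe_eq, ← Finset.sum_add_distrib]
    refine Finset.sum_congr rfl fun ω _ => ?_
    by_cases h1 : A ω <;> by_cases h2 : N ω <;> simp [h1, h2]
  nlinarith only [h, key]

/-- **Plateaus.** -/
theorem plc_thm {b : ℝ} (hb : 0 ≤ b) (q : ℕ) : ∃ C₀ : ℝ, 0 ≤ C₀ ∧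
    ∀ (J : ℕ) (F : Fam 2 J) (A : F.Ω → Prop) (i₀ : Fin 2) (w lam x N hh x1 : ℕ)
    (κ e r r₀ r₁ ρR : ℝ) (e₀ n₀ e₁ n₁ e' n' : (Fin 2 → ℤ) × (ℕ × F.ζ) → Fin 2 → ℝ)
    (ζ : ((Fin 2 → ℝ) × (Fin 2 → ℝ)) × (ℕ × F.ζ) → Fin 2 → ℝ),
    w + lam + x ≤ J → 1 ≤ N → 0 ≤ e → 0 < Pe F.p A →
    (∀ B : F.Ω → Prop, Sub B A → Pe F.p A / 4 ≤ Pe F.p B →
      ∀ hl : IsLaw (cond F.p B True), (F.res B True hl).Tm e) →
    -- the fans are spread, and lie near lines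
    Stb F.p κ A (Ball r (Fam.pt F) F.d) → ¬ Ball r (Fam.pt F) F.d A →
    IsFrame i₀ r₀ (Fam.pt F) F.d A e₀ n₀ → OnL i₀ r₁ (Fam.pt F) F.d A e₁ n₁ →
    ((2 : ℝ) ^ x1)⁻¹ ≤ r - r₀ → 0 < r - 2 * r₀ →
    (2 * r₁ + 2 * ((2 : ℝ) ^ (lam + hh))⁻¹) / (r - 2 * r₀) ≤ ρR →
    -- the frame is not known from the windows `w + x` up to `ρR`
    Stb F.p κ A (RotU i₀ r₁ ρR (Fam.pt F) (wnd F (w + x)) F.d) →
    ¬ RotU i₀ r₁ ρR (Fam.pt F) (wnd F (w + x)) F.d A →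
    Stb F.p κ A (PlC F i₀ w lam x N q b ((2 : ℝ) ^ (lam + hh))⁻¹) →
    -- it is known from the windows `w` to precision `lam`
    OnL i₀ ((2 : ℝ) ^ lam)⁻¹ (Fam.pt F) F.d A e' n' →
    (∀ v j, ∃ k : ℤ, ζ v j = k / 2 ^ lam) → (∀ v j, |ζ v j| ≤ b) →
    (∀ ω, A ω → ∀ j, |e' (Fam.pt F ω) j - ζ (wnd F w ω) j| ≤ q * ((2 : ℝ) ^ lam)⁻¹) →
    4 * plcδ q b N (lam / (x / N)) + 6 * Real.log 2 ≤ κ →
    ∃ B : F.Ω → Prop, Sub B A ∧ Pe F.p A / 4 ≤ Pe F.p B ∧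
      (1 - 2 * Real.exp (-(κ / 4))) * Pe F.p A ≤ Pe F.p B ∧
      ∃ hl : IsLaw (cond F.p B True),
      2 * (x * Real.log 2) - (C₀ * (N * ((hh + x1 + 4 : ℕ) + e + 1) +
        ((lam / (x / N) : ℕ) + 1) * ((x1 : ℝ) + 2 + e + 1)) + 9 * (x / N : ℕ) +
        13 * (J * Real.exp (-(κ / 4)))) ≤
        CH (F.res B True hl).p (F.X (w + lam + x)) (fun ω => (F.X (w + lam) ω, F.W ω)) := by
  classical
  obtain ⟨C₀, hC₀, hrows⟩ := plk_rows hb
  refine ⟨C₀, hC₀, ?_⟩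
  intro J F A i₀ w lam x N hh x1 κ e r r₀ r₁ ρR e₀ n₀ e₁ n₁ e' n' ζ hJ hN he hA hTm hBs hBn
    h₀ h₁ hx1 hr hρR hRs hRn hPs hon hgrid hζb hclose hκ
  have hp := F.isLaw
  have hl2 : 0 < Real.log 2 := Real.log_pos one_lt_two
  obtain ⟨K, hK⟩ : ∃ K, K = x / N := ⟨_, rfl⟩
  obtain ⟨N₂, hN₂⟩ : ∃ N₂, N₂ = lam / K := ⟨_, rfl⟩
  rw [← hK, ← hN₂] at hκ
  have hx1' : N * K ≤ x := by
    rw [hK]
    exact Nat.mul_div_le x N
  have hl1 : N₂ * K ≤ lam := by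
    rw [hN₂]
    exact Nat.div_mul_le_self lam K
  -- the constants
  have g1 : 0 ≤ Real.log (4 * (q : ℝ) + 1) := Real.log_nonneg (by
    have : (0 : ℝ) ≤ q := Nat.cast_nonneg q
    linarith only)
  have g2 : 0 ≤ Real.log (4 * (q : ℝ) + 7) := Real.log_nonneg (by
    have : (0 : ℝ) ≤ q := Nat.cast_nonneg q
    linarith only)
  have g3 : 0 ≤ Real.log (4 * (q : ℝ) + 2 * b + 9) := Real.log_nonneg (by
    have : (0 : ℝ) ≤ q := Nat.cast_nonneg q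
    linarith only [hb])
  have g4 : 0 ≤ Real.log (2 * b + 5) := Real.log_nonneg (by linarith only [hb])
  have g5 : 0 ≤ Real.log 3 := Real.log_nonneg (by norm_num)
  have g6 := cc_nonneg 2
  have g7 := cc_nonneg 1
  obtain ⟨Cv, hCv⟩ : ∃ Cv : ℝ, Cv = 2 * Real.log (4 * q + 1) + 2 * Real.log (4 * q + 7) +
    2 * Real.log (4 * q + 2 * b + 9) := ⟨_, rfl⟩
  have hCv0 : 0 ≤ Cv := by rw [hCv]; positivity
  obtain ⟨δ, hδ⟩ : ∃ δ, δ = plcδ q b N N₂ := ⟨_, rfl⟩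
  have hδv : δ = (2 * N + 4) * Cv + (2 * Real.log (2 * b + 5) + 2 * Real.log 3) +
      cc 2 + (N₂ + 1) * cc 1 + 1 := by
    rw [hδ, plcδ, hCv]
  have hN0 : (0 : ℝ) ≤ N := Nat.cast_nonneg N
  have hN₂0 : (0 : ℝ) ≤ N₂ := Nat.cast_nonneg N₂
  have hδ0 : 0 < δ := by
    rw [hδv]
    positivity
  rw [← hδ] at hκ
  -- entropies of the labels, for every frame
  have hLpt : ∀ (e'' n'' : (Fin 2 → ℤ) × (ℕ × F.ζ) → Fin 2 → ℝ)
      (ξ : ((Fin 2 → ℝ) × (Fin 2 → ℝ)) × (ℕ × F.ζ) → Fin 2 → ℝ),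
      OnL i₀ ((2 : ℝ) ^ lam)⁻¹ (Fam.pt F) F.d A e'' n'' →
      (∀ v j, ∃ k : ℤ, ξ v j = k / 2 ^ lam) → (∀ v j, |ξ v j| ≤ b) →
      (∀ ω, A ω → ∀ j, |e'' (Fam.pt F ω) j - ξ (wnd F w ω) j| ≤ q * ((2 : ℝ) ^ lam)⁻¹) →
      ∀ B : F.Ω → Prop, Sub B A → 0 < Pe F.p B →
      CH (cond F.p B True) (plC (F.plk w lam i₀ (fun ω => ξ (wnd F w ω))) K N) (Fam.pt F) ≤
        (2 * N + 3) * Cv + (2 * Real.log (2 * b + 5) + 2 * Real.log 3) := by
    intro e'' n'' ξ k1 k2 k3 k4 B hBA hB0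
    have hlB := isLaw_cond hp hB0
    have hBpos : ∀ ω, 0 < cond F.p B True ω → A ω := by
      intro ω hω
      have := ((cond_pos_iff hp.nonneg B True ω).1 hω).2
      exact hBA ω (by simpa using this)
    have key := plC_pt (F.res B True hlB) (w := w) (lam := lam) (K := K) (N := N) (by omega)
      (i₀ := i₀) (z := fun ω => ξ (wnd F w ω)) hb (fun ω _ i => k3 _ i) (e := e'') (n := n'')
      (fun ω hω => k1 ω (hBpos ω hω)) (q := q) (fun ω hω => k4 ω (hBpos ω hω))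
      (fun ω j => k2 _ j)
    push_cast at key
    rw [← hCv] at key
    exact key
  have hLwn : ∀ (ξ : ((Fin 2 → ℝ) × (Fin 2 → ℝ)) × (ℕ × F.ζ) → Fin 2 → ℝ),
      ∀ B : F.Ω → Prop, Sub B A → 0 < Pe F.p B →
      CH (cond F.p B True) (plC (F.plk w lam i₀ (fun ω => ξ (wnd F w ω))) K N)
        (wnd F (w + x)) ≤ cc 2 := by
    intro ξ B hBA hB0
    have hlB := isLaw_cond hp hB0
    have key := plC_wnd (F.res B True hlB) (w := w) (lam := lam) (K := K) (N := N) (by omega)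
      i₀ (z := fun ω => ξ (wnd F w ω)) (by
        intro ω ω' _ _ h
        have h' : wnd F w ω = wnd F w ω' := h
        change ξ (wnd F w ω) = ξ (wnd F w ω')
        rw [h'])
    refine le_trans (CH_mono_cond hlB.nonneg ?_) key
    intro ω ω' _ _ h
    have a1 := Prod.ext_iff.mp h
    have a2 := Prod.ext_iff.mp a1.2
    have a3 : F.T1 (w + N * K) ω = F.T1 (w + N * K) ω' :=
      T1_det F (show w + N * K ≤ w + x by omega) (by omega) a2.1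
    exact Prod.ext a1.1 (Prod.ext a3 a2.2)
  -- the directions in the cells do not lie near lines
  have hPn : ¬ PlC F i₀ w lam x N q b ((2 : ℝ) ^ (lam + hh))⁻¹ A := by
    rintro ⟨e'', n'', ξ, k1, k2, k3, k4, k5⟩
    rw [← hK] at k5
    refine hRn (k5.rotU hp hA hBs hBn h₀ h₁ hδ0 ?_ ?_ hr hρR hRs (by linarith only [hl2, hκ, hδ0]))
    · intro B hBA hB0
      refine (hLpt e'' n'' ξ k1 k2 k3 k4 B hBA hB0).trans ?_
      rw [hδv]
      have : 0 ≤ (N₂ + 1) * cc 1 := by positivity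
      nlinarith only [g1, g2, g3, g6, hCv, this]
    · intro B hBA hB0
      refine (hLwn ξ B hBA hB0).trans ?_
      rw [hδv]
      have : 0 ≤ (2 * N + 4) * Cv + (N₂ + 1) * cc 1 := by positivity
      nlinarith only [g4, g5, this]
  have hPs' : ∀ B : F.Ω → Prop, Sub B A → Real.exp (-κ) * Pe F.p A ≤ Pe F.p B →
      ¬ PlC F i₀ w lam x N q b ((2 : ℝ) ^ (lam + hh))⁻¹ B := by
    rcases hPs with h | h
    · exact absurd h hPn
    · exact h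
  -- the labels
  obtain ⟨z, hz⟩ : ∃ z : F.Ω → Fin 2 → ℝ, z = fun ω => ζ (wnd F w ω) := ⟨_, rfl⟩
  obtain ⟨L, hL⟩ : ∃ L, L = plC (F.plk w lam i₀ z) K N := ⟨_, rfl⟩
  obtain ⟨L₂, hL₂⟩ : ∃ L₂, L₂ = plC (F.pj i₀ (w + x) (F.plab (w + x) lam i₀ z)) K N₂ := ⟨_, rfl⟩
  have hLL : ∀ B : F.Ω → Prop, Sub B A → 0 < Pe F.p B →
      CH (cond F.p B True) (fun ω => (L ω, L₂ ω)) (Fam.pt F) ≤ δ := by
    intro B hBA hB0
    have hlB := isLaw_cond hp hB0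
    have hBpos : ∀ ω, 0 < cond F.p B True ω → A ω := by
      intro ω hω
      have := ((cond_pos_iff hp.nonneg B True ω).1 hω).2
      exact hBA ω (by simpa using this)
    have a1 := CH_subadd hlB.nonneg L L₂ (Fam.pt F)
    have a2 := hLpt e' n' ζ hon hgrid hζb hclose B hBA hB0
    have a3 := plC_pj (F.res B True hlB) (w₂ := w + x) (lam := lam) (K := K) (N := N₂)
      (by omega) (by omega) (i₀ := i₀) (z := z) hb (fun ω _ i => by rw [hz]; exact hζb _ i)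
      (e := e') (n := n') (fun ω hω => hon ω (hBpos ω hω)) (q := q)
      (fun ω hω => by rw [hz]; exact hclose ω (hBpos ω hω))
      (fun ω j => by rw [hz]; exact hgrid _ j)
    push_cast at a3
    rw [← hCv] at a3
    rw [← hz, ← hL] at a2
    have a4 : CH (cond F.p B True) L₂ (Fam.pt F) ≤ Cv + cc 2 + (N₂ + 1) * cc 1 := by
      rw [hL₂]
      exact a3
    rw [hδv]
    linarith only [a1, a2, a4]
  -- first cleaning
  obtain ⟨s1, s2⟩ := Stb.refine hp hBs hBn hA hδ0 hLL (by linarith only [hl2, hκ, hδ0])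
  obtain ⟨κ₁, hκ₁⟩ : ∃ κ₁, κ₁ = κ - (2 * δ + Real.log 2) := ⟨_, rfl⟩
  rw [← hκ₁] at s1
  obtain ⟨c1, c2⟩ := Stb.clean hp (by rw [hκ₁]; linarith only [hl2, hκ, hδ0] : 2 * Real.log 2 ≤ κ₁) hA s1 s2 rfl
  have c1' := Stb.clean_exp hp hA s1 s2 rfl
  obtain ⟨N₁, hN₁⟩ : ∃ N₁ : F.Ω → Prop, N₁ = Pop (cond F.p A True) F.d
    (fun ω => (Fam.pt F ω, (L ω, L₂ ω))) (fun D (v : Fin 2 → ℝ) => ∀ j, |D j - v j| ≤ r)
    (Real.exp (-(κ₁ / 2))) := ⟨_, rfl⟩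
  rw [← hN₁] at c1 c2
  replace c1' : Pe F.p (fun ω => A ω ∧ N₁ ω) ≤ Real.exp (-(κ / 4)) * Pe F.p A := by
    rw [hN₁]
    refine c1'.trans (mul_le_mul_of_nonneg_right (Real.exp_le_exp.2 ?_) hA.le)
    rw [hκ₁]
    linarith only [hl2, hκ]
  have d1 := Pe_diff_ge c1'
  obtain ⟨A₁, hA₁⟩ : ∃ A₁ : F.Ω → Prop, A₁ = fun ω => A ω ∧ ¬ N₁ ω := ⟨_, rfl⟩
  rw [← hA₁] at c2
  have hsub1 : Sub A₁ A := by
    rw [hA₁]
    exact fun ω h => h.1
  have hPA₁ : Real.exp (-Real.log 2) * Pe F.p A ≤ Pe F.p A₁ := by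
    rw [hA₁]
    exact Pe_diff c1
  have hhalf : Real.exp (-Real.log 2) = 1 / 2 := by
    rw [Real.exp_neg, Real.exp_log (by norm_num)]
    norm_num
  have hA₁0 : 0 < Pe F.p A₁ := lt_of_lt_of_le (mul_pos (Real.exp_pos _) hA) hPA₁
  -- the chart coordinate
  have hchart : NonConc (cond F.p A₁ True) (fun ω => F.d ω i₀)
      (fun ω => (Fam.pt F ω, (L ω, L₂ ω))) (fun D (v : ℝ) => |D - v| ≤ r - r₀)
      (Real.exp (-(κ₁ / 2))) := by
    refine NonConc.chart (isLaw_cond hp hA₁0) (A := A₁) ?_ (e := fun u => e₀ u.1)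
      (n := fun u => n₀ u.1) ⟨fun ω hω => h₀.bound ω (hsub1 ω hω),
        fun ω hω => h₀.line ω (hsub1 ω hω)⟩ c2
    intro ω hω
    have := ((cond_pos_iff hp.nonneg A₁ True ω).1 hω).2
    simpa using this
  -- second cleaning
  have hLs : Stb F.p (κ - Real.log 2) A₁ (LineC i₀ ((2 : ℝ) ^ (lam + hh))⁻¹ L F.d) := by
    refine Or.inr fun B hB hPB hLC => ?_
    refine hPs' B (fun ω hω => hsub1 ω (hB ω hω)) ?_ ⟨e', n', ζ, ?_, hgrid, hζb, ?_, ?_⟩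
    · refine le_trans ?_ hPB
      calc Real.exp (-κ) * Pe F.p A = Real.exp (-(κ - Real.log 2)) *
            (Real.exp (-Real.log 2) * Pe F.p A) := by
            rw [← mul_assoc, ← Real.exp_add]
            congr 2
            ring
        _ ≤ _ := mul_le_mul_of_nonneg_left hPA₁ (Real.exp_pos _).le
    · exact hon.sub fun ω hω => hsub1 ω (hB ω hω)
    · exact fun ω hω => hclose ω (hsub1 ω (hB ω hω))
    · rw [← hK, ← hz, ← hL]
      exact hLC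
  have hLn : ¬ LineC i₀ ((2 : ℝ) ^ (lam + hh))⁻¹ L F.d A₁ := by
    intro hLC
    refine hPs' A₁ hsub1 (le_trans ?_ hPA₁) ⟨e', n', ζ, hon.sub hsub1, hgrid, hζb,
      fun ω hω => hclose ω (hsub1 ω hω), ?_⟩
    · exact mul_le_mul_of_nonneg_right (Real.exp_le_exp.2 (by linarith only [hl2, hκ, hδ0])) hA.le
    · rw [← hK, ← hz, ← hL]
      exact hLC
  obtain ⟨c3, c4⟩ := Stb.clean hp (by linarith only [hl2, hκ, hδ0] : 2 * Real.log 2 ≤ κ - Real.log 2) hA₁0 hLs hLn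
    rfl
  have c3' := Stb.clean_exp hp hA₁0 hLs hLn rfl
  obtain ⟨N₃, hN₃⟩ : ∃ N₃ : F.Ω → Prop, N₃ = Pop (cond F.p A₁ True) F.d L
    (fun D (s : (Fin 2 → ℝ) × (Fin 2 → ℝ)) =>
      ∀ j, |D j - s.1 j * D i₀ - s.2 j| ≤ ((2 : ℝ) ^ (lam + hh))⁻¹)
    (Real.exp (-((κ - Real.log 2) / 2))) := ⟨_, rfl⟩
  rw [← hN₃] at c3 c4
  replace c3' : Pe F.p (fun ω => A₁ ω ∧ N₃ ω) ≤ Real.exp (-(κ / 4)) * Pe F.p A₁ := by
    rw [hN₃]
    refine c3'.trans (mul_le_mul_of_nonneg_right (Real.exp_le_exp.2 ?_) hA₁0.le)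
    linarith only [hl2, hκ, hδ0]
  have d3 := Pe_diff_ge c3'
  have hPA₂ := Pe_diff c3
  have hA₂0 : 0 < Pe F.p (fun ω => A₁ ω ∧ ¬ N₃ ω) :=
    lt_of_lt_of_le (mul_pos (Real.exp_pos _) hA₁0) hPA₂
  have hchart2 := NonConc.cut hp hA₁0 hA₂0 (N := N₃) (by
    intro ω ω' h
    have h2 : L ω = L ω' := (Prod.ext_iff.mp (Prod.ext_iff.mp h).2).1
    rw [hN₃]
    unfold Pop
    rw [h2]) hchart
  obtain ⟨A₂, hA₂⟩ : ∃ A₂ : F.Ω → Prop, A₂ = fun ω => A₁ ω ∧ ¬ N₃ ω := ⟨_, rfl⟩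
  rw [← hA₂] at hPA₂ hA₂0 hchart2 c4 d3
  have hsub2 : Sub A₂ A := by
    rw [hA₂]
    exact fun ω h => hsub1 ω h.1
  have hquart : Pe F.p A / 4 ≤ Pe F.p A₂ := by
    rw [hhalf] at hPA₁ hPA₂
    linarith only [hPA₁, hPA₂]
  have hl := isLaw_cond hp hA₂0
  refine ⟨A₂, hsub2, hquart, ?_, hl, ?_⟩
  · have d1' : (1 - Real.exp (-(κ / 4))) * Pe F.p A ≤ Pe F.p A₁ := by
      rw [hA₁]
      exact d1
    have d4 : 0 ≤ 1 - Real.exp (-(κ / 4)) := by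
      have : Real.exp (-(κ / 4)) ≤ 1 := by
        rw [Real.exp_le_one_iff]
        linarith only [hl2, hκ, hδ0]
      linarith only [this]
    have d5 : (1 - Real.exp (-(κ / 4))) * ((1 - Real.exp (-(κ / 4))) * Pe F.p A) ≤ Pe F.p A₂ :=
      (mul_le_mul_of_nonneg_left d1' d4).trans d3
    have d6 : 0 ≤ Real.exp (-(κ / 4)) ^ 2 * Pe F.p A := mul_nonneg (sq_nonneg _) hA.le
    nlinarith only [d5, d6]
  have hρ0 : 0 ≤ Real.exp (-(κ / 4)) := (Real.exp_pos _).le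
  have hpos2 : ∀ ω, 0 < cond F.p A₂ True ω → A ω := by
    intro ω hω
    have := ((cond_pos_iff hp.nonneg A₂ True ω).1 hω).2
    exact hsub2 ω (by simpa using this)
  have key := hrows J (F.res A₂ True hl) i₀ z w lam x N hh x1 e (Real.exp (-(κ / 4))) _
    (fun ω => (Fam.pt F ω, (L ω, L₂ ω))) hJ hN he hρ0 (hTm A₂ hsub2 hquart hl)
    (by
      intro ω ω' _ _ h
      have h' : wnd F w ω = wnd F w ω' := h
      rw [hz]
      change ζ (wnd F w ω) = ζ (wnd F w ω')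
      rw [h'])
    (fun ω _ i => by rw [hz]; exact hζb _ i)
    (by
      rw [← hK]
      have := c4.mono_rho hl (ρ' := Real.exp (-(κ / 4))) (Real.exp_le_exp.2 (by linarith only [hl2, hκ, hδ0]))
      rw [hL] at this
      exact this)
    (by
      have h1 := hchart2.mono_rho hl (ρ' := Real.exp (-(κ / 4)))
        (Real.exp_le_exp.2 (by rw [hκ₁]; linarith only [hl2, hκ]))
      intro ω hω s
      refine le_trans (mas_mono hl fun ω' _ _ hr' => ?_) (h1 ω hω s)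
      exact hr'.trans hx1)
    (by
      rw [← hK]
      intro ω ω' _ _ h
      have h2 : L ω = L ω' := (Prod.ext_iff.mp (Prod.ext_iff.mp h).2).1
      rw [hL] at h2
      exact h2)
    (by
      rw [← hK, ← hN₂]
      intro ω ω' _ _ h
      have h2 : L₂ ω = L₂ ω' := (Prod.ext_iff.mp (Prod.ext_iff.mp h).2).2
      rw [hL₂] at h2
      exact h2)
  exact key

end Pool.K2S
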