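import Pool.Agent.H45.K2.SRR
import Pool.Agent.H45.K2.LCR
import Pool.Agent.H64.K2.Plk3

/-!
# Labels of planks at finitely many scales
-/

set_option autoImplicit false

namespace Pool.K2S

open Finset Real
open Pool.Agent.H49.Ent Pool.Agent.H32.Dense Pool.STK Pool.KA Pool.KA.Win Pool.KA.TRC Rows FF

variable {m J : ℕ}

/-- The window of length `2 ^ (-v)` of the line. -/
def wnd {m J : ℕ} (F : Fam m J) (v : ℕ) (ω : F.Ω) :
    ((Fin m → ℝ) × (Fin m → ℝ)) × (ℕ × F.ζ) := (F.l ω, (F.T1 v ω, F.Z ω))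

/-- The cells at the scales `i K`, `i ≤ N`, and the position at the last scale. -/
noncomputable def plC {m J : ℕ} (F : Fam m J) (K N : ℕ) (ω : F.Ω) :
    (Fin (N + 1) → (ℕ × (Fin m → ℤ)) × F.ζ) × (Fin m → ℤ) :=
  (fun i => F.c ((i : ℕ) * K) ω, F.X (N * K) ω)

theorem plC_eq {F : Fam m J} {K N : ℕ} {ω ω' : F.Ω} (h : plC F K N ω = plC F K N ω') :
    (∀ i ≤ N, F.c (i * K) ω = F.c (i * K) ω') ∧ (∀ i ≤ N, F.X (i * K) ω = F.X (i * K) ω') := by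
  have h1 := Prod.ext_iff.mp h
  refine ⟨fun i hi => ?_, fun i hi => ?_⟩
  · exact congrFun h1.1 ⟨i, by omega⟩
  · exact Pool.STK.B58.fl_fine (Nat.mul_le_mul_right K hi) h1.2

/-- The label of `rows_thm` is a function of the label. -/
theorem plC_rlab (F : Fam m J) (K N : ℕ) {i : ℕ} (hi : i < N) {ω ω' : F.Ω}
    (h : plC F K N ω = plC F K N ω') : rlab F K i ω = rlab F K i ω' := by
  obtain ⟨h1, h2⟩ := plC_eq h
  have a0 := h1 i (by omega)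
  have a1 := h1 (i + 1) (by omega)
  have a2 := h2 (i + 1) (by omega)
  have a3 : F.T1 ((i + 1) * K) ω = F.T1 ((i + 1) * K) ω' :=
    (Prod.ext_iff.mp (Prod.ext_iff.mp a1).1).1
  unfold rlab
  simp only [Nat.zero_add]
  rw [a0, a1, a2, a3]

/-- The side information is a function of the label. -/
theorem plC_Z (F : Fam m J) (K N : ℕ) {ω ω' : F.Ω} (h : plC F K N ω = plC F K N ω') :
    F.Z ω = F.Z ω' := by
  have h1 := (plC_eq h).1 0 (by omega)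
  exact (Prod.ext_iff.mp h1).2

/-- The label of the plank family has bounded entropy given the window. -/
theorem plC_wnd (F : Fam m J) {w lam K N : ℕ} (hJ : w + N * K ≤ J) (i₀ : Fin m)
    {z : F.Ω → Fin m → ℝ} (hz : Det F.p (wnd F w) z) :
    CH F.p (plC (F.plk w lam i₀ z) K N) (wnd F (w + N * K)) ≤ cc m := by
  have hp := F.isLaw.nonneg
  have hdet : ∀ i ≤ N, Det F.p (wnd F (w + N * K)) ((F.plk w lam i₀ z).c (i * K)) := by
    intro i hi ω ω' a b h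
    have h1 := Prod.ext_iff.mp h
    have h2 := Prod.ext_iff.mp h1.2
    have hik : i * K ≤ N * K := Nat.mul_le_mul_right K hi
    have e1 : F.T1 (w + i * K) ω = F.T1 (w + i * K) ω' := T1_det F (by omega) hJ h2.1
    have e2 : F.T1 w ω = F.T1 w ω' := T1_det F (by omega) hJ h2.1
    have e3 : z ω = z ω' := hz ω ω' a b (Prod.ext h1.1 (Prod.ext e2 h2.2))
    exact Plk.c_det F (by omega) h1.1 e1 e3 h2.2
  have h1 : CH F.p (plC (F.plk w lam i₀ z) K N) (wnd F (w + N * K)) ≤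
      CH F.p ((F.plk w lam i₀ z).X (N * K)) (wnd F (w + N * K)) := by
    refine CH_mono_left hp fun ω ω' a b h => ?_
    have e1 := Prod.ext_iff.mp h
    exact Prod.ext (funext fun i => hdet i (by omega) ω ω' a b e1.2) e1.1
  have h2 := CH_X_c (F.plk w lam i₀ z) (w := N * K) (by omega) (wnd F (w + N * K))
    (hdet N le_rfl)
  exact h1.trans h2

/-- The label of the plank family has bounded entropy given the exact point. -/
theorem plC_pt (F : Fam m J) {w lam K N : ℕ} (hJ : w + N * K + lam ≤ J) {i₀ : Fin m}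
    {z : F.Ω → Fin m → ℝ} {b : ℝ} (hb : 0 ≤ b) (hz : ∀ ω, 0 < F.p ω → ∀ i, |z ω i| ≤ b)
    {e n : (Fin m → ℤ) × (ℕ × F.ζ) → Fin m → ℝ}
    (hl : ∀ ω, 0 < F.p ω → ∀ j, |F.d ω j - e (Fam.pt F ω) j * F.d ω i₀ - n (Fam.pt F ω) j| ≤
      ((2 : ℝ) ^ lam)⁻¹) {q : ℕ}
    (he : ∀ ω, 0 < F.p ω → ∀ j, |e (Fam.pt F ω) j - z ω j| ≤ q * ((2 : ℝ) ^ lam)⁻¹)
    (hg : ∀ ω j, ∃ k : ℤ, z ω j = k / 2 ^ lam) :
    CH F.p (plC (F.plk w lam i₀ z) K N) (Fam.pt F) ≤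
      (2 * N + 3) * (m * Real.log (4 * q + 1) + m * Real.log (4 * q + 7) +
        m * Real.log (4 * q + 2 * b + 9)) + (m * Real.log (2 * b + 5) + m * Real.log 3) := by
  have hp := F.isLaw.nonneg
  set Cv : ℝ := m * Real.log (4 * q + 1) + m * Real.log (4 * q + 7) +
        m * Real.log (4 * q + 2 * b + 9) with hCv
  have hv : ∀ v, v + lam ≤ J → CH F.p (F.plab v lam i₀ z) (Fam.pt F) ≤ Cv := by
    intro v hv
    exact Plk.plab_pt F hv hb hz (pt := Fam.pt F) (fun _ _ _ _ h => h) hl he hg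
  have hc : ∀ i : Fin (N + 1), CH F.p ((F.plk w lam i₀ z).c ((i : ℕ) * K)) (Fam.pt F) ≤
      2 * Cv := by
    intro i
    have hik : (i : ℕ) * K ≤ N * K := Nat.mul_le_mul_right K (by omega)
    have h1 : CH F.p ((F.plk w lam i₀ z).c ((i : ℕ) * K)) (Fam.pt F) ≤
        CH F.p (fun ω => (F.plab (w + i * K) lam i₀ z ω, F.plab w lam i₀ z ω)) (Fam.pt F) := by
      refine CH_mono_left hp fun ω ω' _ _ h => ?_
      have e1 := Prod.ext_iff.mp (Prod.ext_iff.mp h).1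
      exact (Plk.c_iff F (by omega)).2 ⟨e1.1, e1.2⟩
    have h2 := CH_subadd hp (F.plab (w + i * K) lam i₀ z) (F.plab w lam i₀ z) (Fam.pt F)
    have h3 := hv (w + i * K) (by omega)
    have h4 := hv w (by omega)
    linarith
  have h1 : CH F.p (plC (F.plk w lam i₀ z) K N) (Fam.pt F) ≤
      CH F.p (fun ω (i : Fin (N + 1)) => (F.plk w lam i₀ z).c ((i : ℕ) * K) ω) (Fam.pt F) +
      CH F.p ((F.plk w lam i₀ z).X (N * K)) (Fam.pt F) :=
    CH_subadd hp _ _ _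
  have h2 := CH_pi_le hp (Fam.pt F) (N + 1)
    (fun i => (F.plk w lam i₀ z).c ((i : ℕ) * K)) hc
  have h3 : CH F.p ((F.plk w lam i₀ z).X (N * K)) (Fam.pt F) ≤
      CH F.p ((F.plk w lam i₀ z).X (N * K))
        (fun ω => (F.X J ω, (F.T ω, F.plab w lam i₀ z ω))) + Cv := by
    have a1 := CH_le_add hp ((F.plk w lam i₀ z).X (N * K)) (F.plab w lam i₀ z) (Fam.pt F)
    have a2 := hv w (by omega)
    have a3 : CH F.p ((F.plk w lam i₀ z).X (N * K))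
        (fun ω => (F.plab w lam i₀ z ω, Fam.pt F ω)) ≤ CH F.p ((F.plk w lam i₀ z).X (N * K))
        (fun ω => (F.X J ω, (F.T ω, F.plab w lam i₀ z ω))) := by
      refine CH_mono_cond hp fun ω ω' _ _ h => ?_
      have e1 := Prod.ext_iff.mp h
      have e2 : F.X J ω = F.X J ω' ∧ F.W ω = F.W ω' := Prod.ext_iff.mp e1.2
      exact Prod.ext e2.1 (Prod.ext (Prod.ext_iff.mp e2.2).1 e1.1)
    linarith
  have h4 := Plk.CH_X_pt F (w := w) (K := N * K) (lam := lam) (r := J) (by omega) (by omega)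
    (i0 := i₀) hb hz
  push_cast at h2
  have h5 : ((2 : ℝ) * N + 3) * Cv = (N + 1) * (2 * Cv) + Cv := by ring
  rw [h5]
  linarith

/-- The label of the projected family has bounded entropy given the exact point. -/
theorem plC_pj (F : Fam m J) {w₂ lam K N : ℕ} (hJ : w₂ + N * K ≤ J) (hJ' : w₂ + lam ≤ J)
    {i₀ : Fin m}
    {z : F.Ω → Fin m → ℝ} {b : ℝ} (hb : 0 ≤ b) (hz : ∀ ω, 0 < F.p ω → ∀ i, |z ω i| ≤ b)
    {e n : (Fin m → ℤ) × (ℕ × F.ζ) → Fin m → ℝ}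
    (hl : ∀ ω, 0 < F.p ω → ∀ j, |F.d ω j - e (Fam.pt F ω) j * F.d ω i₀ - n (Fam.pt F ω) j| ≤
      ((2 : ℝ) ^ lam)⁻¹) {q : ℕ}
    (he : ∀ ω, 0 < F.p ω → ∀ j, |e (Fam.pt F ω) j - z ω j| ≤ q * ((2 : ℝ) ^ lam)⁻¹)
    (hg : ∀ ω j, ∃ k : ℤ, z ω j = k / 2 ^ lam) :
    CH F.p (plC (F.pj i₀ w₂ (F.plab w₂ lam i₀ z)) K N) (Fam.pt F) ≤
      (m * Real.log (4 * q + 1) + m * Real.log (4 * q + 7) +
        m * Real.log (4 * q + 2 * b + 9)) + cc m + (N + 1) * cc 1 := by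
  have hp := F.isLaw.nonneg
  have hw₂ : w₂ ≤ J := by omega
  set S := F.plab w₂ lam i₀ z with hS
  set G := F.pj i₀ w₂ S with hG
  have hv : CH F.p S (Fam.pt F) ≤ m * Real.log (4 * q + 1) + m * Real.log (4 * q + 7) +
        m * Real.log (4 * q + 2 * b + 9) :=
    Plk.plab_pt F hJ' hb hz (pt := Fam.pt F) (fun _ _ _ _ h => h) hl he hg
  have hx : CH F.p (F.c w₂) (Fam.pt F) ≤ cc m := CH_c_pt F hw₂
  -- positions of the projected family
  have hXdet : ∀ j, j + w₂ ≤ J → ∀ ω ω', F.X J ω = F.X J ω' → F.c w₂ ω = F.c w₂ ω' →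
      G.X j ω = G.X j ω' := by
    intro j hj ω ω' h1 h2
    funext i
    change (F.pj i₀ w₂ S).X j ω i = (F.pj i₀ w₂ S).X j ω' i
    rw [Pj.pj_X F i₀ hw₂, Pj.pj_X F i₀ hw₂]
    have e1 : ⌊(2 : ℝ) ^ (j + w₂) * F.x ω i₀⌋ = ⌊(2 : ℝ) ^ (j + w₂) * F.x ω' i₀⌋ := by
      have e2 : fl (j + w₂) (F.x ω) = fl (j + w₂) (F.x ω') := Pool.STK.B58.fl_fine hj h1
      exact congrFun e2 i₀
    have e3 : ⌊(2 : ℝ) ^ w₂ * F.x1 w₂ ω i₀⌋ = ⌊(2 : ℝ) ^ w₂ * F.x1 w₂ ω' i₀⌋ :=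
      congrFun (Prod.ext_iff.mp (Prod.ext_iff.mp h2).1).2 i₀
    rw [e1, e3]
  have hcpt : ∀ i : Fin (N + 1), CH F.p (G.c ((i : ℕ) * K))
      (fun ω => ((F.c w₂ ω, S ω), Fam.pt F ω)) ≤ cc 1 := by
    intro i
    have hik : (i : ℕ) * K ≤ N * K := Nat.mul_le_mul_right K (by omega)
    have h1 := CH_c_pt G (w := (i : ℕ) * K) (by omega)
    refine le_trans ?_ h1
    refine CH_mono_cond (p := F.p) hp fun ω ω' _ _ h => ?_
    have a1 := Prod.ext_iff.mp h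
    have a2 := Prod.ext_iff.mp a1.1
    have a3 : F.X J ω = F.X J ω' ∧ F.W ω = F.W ω' := Prod.ext_iff.mp a1.2
    have a4 := Prod.ext_iff.mp a3.2
    have a5 := Prod.ext_iff.mp (Prod.ext_iff.mp a2.1).1
    have a6 : F.T ω = F.T ω' := a4.1
    refine Prod.ext (hXdet (J - w₂) (by omega) ω ω' a3.1 a2.1) (Prod.ext ?_ ?_)
    · change F.T ω % 2 ^ (J - w₂) = F.T ω' % 2 ^ (J - w₂)
      rw [a6]
    · change (((F.T1 w₂ ω, ⌊(2 : ℝ) ^ w₂ * F.x1 w₂ ω i₀⌋), S ω), F.Z ω) =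
        (((F.T1 w₂ ω', ⌊(2 : ℝ) ^ w₂ * F.x1 w₂ ω' i₀⌋), S ω'), F.Z ω')
      have a7 : ⌊(2 : ℝ) ^ w₂ * F.x1 w₂ ω i₀⌋ = ⌊(2 : ℝ) ^ w₂ * F.x1 w₂ ω' i₀⌋ :=
        congrFun a5.2 i₀
      have a8 : F.T1 w₂ ω = F.T1 w₂ ω' := a5.1
      have a9 : S ω = S ω' := a2.2
      have a10 : F.Z ω = F.Z ω' := a4.2
      rw [a7, a8, a9, a10]
  have h1 := CH_le_add hp (plC G K N) (fun ω => (F.c w₂ ω, S ω)) (Fam.pt F)
  have h2 := CH_subadd hp (F.c w₂) S (Fam.pt F)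
  have h3 : CH F.p (plC G K N) (fun ω => ((F.c w₂ ω, S ω), Fam.pt F ω)) ≤
      CH F.p (fun ω (i : Fin (N + 1)) => G.c ((i : ℕ) * K) ω)
        (fun ω => ((F.c w₂ ω, S ω), Fam.pt F ω)) +
      CH F.p (G.X (N * K)) (fun ω => ((F.c w₂ ω, S ω), Fam.pt F ω)) :=
    CH_subadd hp _ _ _
  have h4 := CH_pi_le hp (fun ω => ((F.c w₂ ω, S ω), Fam.pt F ω)) (N + 1)
    (fun i => G.c ((i : ℕ) * K)) hcpt
  have h5 : CH F.p (G.X (N * K)) (fun ω => ((F.c w₂ ω, S ω), Fam.pt F ω)) = 0 := by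
    refine CH_eq_zero hp fun ω ω' _ _ h => ?_
    have a1 := Prod.ext_iff.mp h
    have a2 := Prod.ext_iff.mp a1.1
    have a3 : F.X J ω = F.X J ω' ∧ F.W ω = F.W ω' := Prod.ext_iff.mp a1.2
    exact hXdet (N * K) (by omega) ω ω' a3.1 a2.1
  push_cast at h4
  linarith

end Pool.K2S
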