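import Pool.Agent.H45.K2.PLL

/-!
# All the rows are full if the directions are nonconcentrated in the cells of the planks
-/

set_option autoImplicit false

namespace Pool.K2S

open Finset Real
open Pool.Agent.H49.Ent Pool.Agent.H32.Dense Pool.STK Pool.KA Pool.KA.Win Pool.KA.TRC Rows FF

section Gen

variable {Ω S S' T : Type} [Fintype Ω]

/-- Removal of fibres of the label. -/
theorem NonConc.cut {p : Ω → ℝ} (hp : IsLaw p) {A N : Ω → Prop} (hA : 0 < Pe p A)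
    (hA' : 0 < Pe p (fun ω => A ω ∧ ¬ N ω)) {c : Ω → S'} {g : Ω → T} {r : S' → S → Prop} {ρ : ℝ}
    (hN : ∀ ω ω', g ω = g ω' → (N ω ↔ N ω'))
    (h : NonConc (Pool.Agent.H49.Ent.cond p A True) c g r ρ) :
    NonConc (Pool.Agent.H49.Ent.cond p (fun ω => A ω ∧ ¬ N ω) True) c g r ρ := by
  classical
  set q := Pool.Agent.H49.Ent.cond p A True with hq'
  set A' : Ω → Prop := fun ω => A ω ∧ ¬ N ω with hAd
  have hfib : ∀ ω₀, ¬ N ω₀ → ∀ ω, g ω = g ω₀ →
      Pool.Agent.H49.Ent.cond p A' True ω = Pe p A / Pe p A' * q ω := by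
    intro ω₀ h0 ω hω
    have hNω : ¬ N ω := fun h => h0 ((hN ω ω₀ hω).1 h)
    rw [hq']
    unfold Pool.Agent.H49.Ent.cond
    by_cases hAω : A ω
    · rw [if_pos (by simp [hAd, hAω, hNω]), if_pos (by simp [hAω])]
      rw [div_mul_div_comm, mul_comm (Pe p A), mul_div_mul_right _ _ hA.ne']
    · rw [if_neg (by simp [hAd, hAω]), if_neg (by simp [hAω]), mul_zero]
  intro ω hω s
  have hω' := (cond_pos_iff hp.nonneg A' True ω).1 hω
  have hωA : A' ω := by simpa using hω'.2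
  have hqω : 0 < q ω := (cond_pos_iff hp.nonneg A True ω).2 ⟨hω'.1, by simpa using hωA.1⟩
  have e1 : mas (Pool.Agent.H49.Ent.cond p A' True) c g r (g ω) s =
      Pe p A / Pe p A' * mas q c g r (g ω) s := by
    unfold mas
    rw [Pe_eq (Pool.Agent.H49.Ent.cond p A' True), Pe_eq q, Finset.mul_sum]
    refine Finset.sum_congr rfl fun w _ => ?_
    by_cases h : g w = g ω ∧ r (c w) s
    · rw [if_pos h, if_pos h, hfib ω hωA.2 w h.1]
    · rw [if_neg h, if_neg h, mul_zero]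
  have e2 : law (Pool.Agent.H49.Ent.cond p A' True) g (g ω) =
      Pe p A / Pe p A' * law q g (g ω) := by
    rw [law_eq_sum (Pool.Agent.H49.Ent.cond p A' True), law_eq_sum q, Finset.mul_sum]
    refine Finset.sum_congr rfl fun w _ => ?_
    by_cases h : g w = g ω
    · rw [if_pos h, if_pos h, hfib ω hωA.2 w h]
    · rw [if_neg h, if_neg h, mul_zero]
  have e3 := h ω hqω s
  rw [e1, e2]
  have h5 : 0 ≤ Pe p A / Pe p A' := div_nonneg hA.le hA'.le
  calc Pe p A / Pe p A' * mas q c g r (g ω) s ≤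
      Pe p A / Pe p A' * (ρ * law q g (g ω)) := mul_le_mul_of_nonneg_left e3 h5
    _ = _ := by ring

theorem NonConc.mono_rho {q : Ω → ℝ} (hq : IsLaw q) {c : Ω → S'} {g : Ω → T} {r : S' → S → Prop}
    {ρ ρ' : ℝ} (h : NonConc q c g r ρ) (hρ : ρ ≤ ρ') : NonConc q c g r ρ' :=
  fun ω hω s => (h ω hω s).trans
    (mul_le_mul_of_nonneg_right hρ (law_nonneg hq.nonneg g (g ω)))

end Gen

/-- The arithmetic of the rows. -/
theorem plk_arith {x N K a a₂ N₂ h h₂ lam J L e ρ C Cb CHv : ℝ}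
    (hN : 0 ≤ N) (hK : 0 ≤ K) (hN₂ : 0 ≤ N₂) (hL0 : 0 ≤ L) (hL1 : L ≤ 1)
    (ha : a = K - 3 * h - 6) (ha₂ : a₂ = K - 2 * h₂ - 3) (hh : 0 ≤ h) (hh₂ : 0 ≤ h₂)
    (hx : x ≤ N * K + N) (hx' : N * K ≤ x) (hl : lam ≤ N₂ * K + K)
    (hl' : N₂ * K ≤ lam) (he : 0 ≤ e) (hρ : 0 ≤ ρ) (hC : 0 ≤ C) (hCb : 0 ≤ Cb)
    (hxJ : x ≤ J) (hlJ : lam ≤ J)
    (hmain : N * (2 * (a * L) - 9 * (a * L) * ρ - 4 * e - C) - 3 * (2 * (K * L) + C) +
      (N₂ * (a₂ * L - 4 * (a₂ * L) * ρ - 3 * e - C) - 2 * (K * L + C)) ≤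
      lam * L + CHv + C + Cb) :
    2 * (x * L) - ((20 + 7 * C + Cb) * (N * (h + e + 1) + (N₂ + 1) * (h₂ + e + 1)) +
      9 * K + 13 * (J * ρ)) ≤ CHv := by
  subst ha ha₂
  have m1 : L * (N * (3 * h + 7)) ≤ N * (3 * h + 7) := by
    have : 0 ≤ N * (3 * h + 7) := by positivity
    nlinarith
  have m2 : L * (N₂ * (2 * h₂ + 3)) ≤ N₂ * (2 * h₂ + 3) := by
    have b2 : 0 ≤ N₂ * (2 * h₂ + 3) := by positivity
    nlinarith
  have m3 : L * K ≤ K := by nlinarith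
  have m4 : N * K * L * ρ ≤ J * ρ := by
    have b1 : N * K ≤ J := hx'.trans hxJ
    have b2 : N * K * L ≤ J := by
      have : N * K * L ≤ N * K * 1 := mul_le_mul_of_nonneg_left hL1 (by positivity)
      linarith
    exact mul_le_mul_of_nonneg_right b2 hρ
  have m5 : N₂ * K * L * ρ ≤ J * ρ := by
    have b1 : N₂ * K ≤ J := hl'.trans hlJ
    have b2 : N₂ * K * L ≤ J := by
      have : N₂ * K * L ≤ N₂ * K * 1 := mul_le_mul_of_nonneg_left hL1 (by positivity)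
      linarith
    exact mul_le_mul_of_nonneg_right b2 hρ
  have p1 : 0 ≤ N * ((3 * h + 6) * L) * ρ := by positivity
  have p2 : 0 ≤ N₂ * ((2 * h₂ + 3) * L) * ρ := by positivity
  have p3 : x * L ≤ (N * K + N) * L := mul_le_mul_of_nonneg_right hx hL0
  have p4 : lam * L ≤ (N₂ * K + K) * L := mul_le_mul_of_nonneg_right hl hL0
  -- the right-hand side
  obtain ⟨M, hM⟩ : ∃ M, M = N * (h + e + 1) + (N₂ + 1) * (h₂ + e + 1) := ⟨_, rfl⟩
  have q0 : N + N₂ + 1 ≤ M := by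
    rw [hM]
    have : 0 ≤ N * (h + e) + (N₂ + 1) * (h₂ + e) := by positivity
    linarith only [this]
  have q1 : N * (h + 1) + N₂ * (h₂ + 1) + (N + N₂) * e ≤ M := by
    rw [hM]
    have : 0 ≤ h₂ + e + 1 := by positivity
    linarith only [this]
  have q4 : (N + N₂ + 1) * C ≤ M * C := mul_le_mul_of_nonneg_right q0 hC
  have q5 : C ≤ M * C := by
    have : 0 ≤ (N + N₂) * C := by positivity
    linarith only [this, q4]
  have q6 : Cb ≤ M * Cb := by
    have h1 : (N + N₂ + 1) * Cb ≤ M * Cb := mul_le_mul_of_nonneg_right q0 hCb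
    have : 0 ≤ (N + N₂) * Cb := by positivity
    linarith only [this, h1]
  have q7 : 0 ≤ N * (h + 1) := by positivity
  have q8 : 0 ≤ N₂ * (h₂ + 1) := by positivity
  have q9 : 0 ≤ (N + N₂) * e := by positivity
  have q10 : 0 ≤ N * h := by positivity
  have q11 : 0 ≤ N₂ * h₂ := by positivity
  have q12 : 0 ≤ N₂ * e := by positivity
  rw [← hM]
  linarith only [m1, m2, m3, m4, m5, p1, p2, p3, p4, q1, q4, q5, q6, q7, q8, q9, q10, q11, q12,
    hN, hN₂, hK, hC, hCb, hmain]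

/-- **Rows, given the nonconcentration.** -/
theorem plk_rows {b : ℝ} (hb : 0 ≤ b) : ∃ C₀ : ℝ, 0 ≤ C₀ ∧ ∀ (J : ℕ) (F : Fam 2 J) (i₀ : Fin 2)
    (z : F.Ω → Fin 2 → ℝ) (w lam x N hh x1 : ℕ) (e ρ : ℝ) (ε : Type) (E : F.Ω → ε),
    w + lam + x ≤ J → 1 ≤ N → 0 ≤ e → 0 ≤ ρ → F.Tm e → Det F.p (wnd F w) z →
    (∀ ω, 0 < F.p ω → ∀ i, |z ω i| ≤ b) →
    NonConc F.p F.d (plC (F.plk w lam i₀ z) (x / N) N) (fun D (s : (Fin 2 → ℝ) × (Fin 2 → ℝ)) =>
      ∀ j, |D j - s.1 j * D i₀ - s.2 j| ≤ ((2 : ℝ) ^ (lam + hh))⁻¹) ρ →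
    NonConc F.p (fun ω => F.d ω i₀) E (fun D (v : ℝ) => |D - v| ≤ ((2 : ℝ) ^ x1)⁻¹) ρ →
    Det F.p E (plC (F.plk w lam i₀ z) (x / N) N) →
    Det F.p E (plC (F.pj i₀ (w + x) (F.plab (w + x) lam i₀ z)) (x / N) (lam / (x / N))) →
    2 * (x * Real.log 2) - (C₀ * (N * ((hh + x1 + 4 : ℕ) + e + 1) +
      ((lam / (x / N) : ℕ) + 1) * ((x1 : ℝ) + 2 + e + 1)) +
      9 * (x / N : ℕ) + 13 * (J * ρ)) ≤
      CH F.p (F.X (w + lam + x)) (fun ω => (F.X (w + lam) ω, F.W ω)) := by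
  obtain ⟨C, hC, hsum⟩ := sum_rowsR
  set c₂ : ℝ := 4 * Real.log (2 * b + 5) + 6 * Real.log 3 with hc₂
  have hlb : 0 ≤ Real.log (2 * b + 5) := Real.log_nonneg (by linarith)
  have hl3 : 0 ≤ Real.log 3 := Real.log_nonneg (by norm_num)
  have hc₂0 : 0 ≤ c₂ := by positivity
  refine ⟨20 + 7 * C + c₂, by positivity, ?_⟩
  intro J F i₀ z w lam x N hh x1 e ρ ε E hJ hN he hρ hTm hz hzb hlin hch hE1 hE2
  have hlaw := F.isLaw
  have hp := hlaw.nonneg
  have hl2 : 0 ≤ Real.log 2 := Real.log_nonneg one_le_two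
  have hl2' : Real.log 2 ≤ 1 := by
    have := Real.log_le_sub_one_of_pos (x := 2) (by norm_num)
    linarith
  obtain ⟨K, hK⟩ : ∃ K, K = x / N := ⟨_, rfl⟩
  obtain ⟨N₂, hN₂⟩ : ∃ N₂, N₂ = lam / K := ⟨_, rfl⟩
  obtain ⟨h, hh'⟩ : ∃ h, h = hh + x1 + 4 := ⟨_, rfl⟩
  rw [← hK] at hlin hE1 hE2 ⊢
  rw [← hN₂] at hE2 ⊢
  rw [← hh']
  have hCH := CH_nonneg hp (F.X (w + lam + x)) (fun ω => (F.X (w + lam) ω, F.W ω))
  have hNr : (1 : ℝ) ≤ N := by exact_mod_cast hN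
  have hKr : (0 : ℝ) ≤ K := Nat.cast_nonneg K
  have hN₂r : (0 : ℝ) ≤ N₂ := Nat.cast_nonneg N₂
  have hhr : (0 : ℝ) ≤ h := Nat.cast_nonneg h
  have hx1 : N * K ≤ x := by
    rw [hK]
    exact Nat.mul_div_le x N
  have hx2 : x ≤ N * K + N := by
    have := Nat.lt_mul_div_succ x (show 0 < N by omega)
    rw [← hK] at this
    have e1 : N * (K + 1) = N * K + N := by ring
    omega
  have hx2r : (x : ℝ) ≤ N * K + N := by exact_mod_cast hx2
  have hx1r : (N : ℝ) * K ≤ x := by exact_mod_cast hx1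
  have hJr : (0 : ℝ) ≤ J := Nat.cast_nonneg J
  rcases Nat.lt_or_ge K (3 * h + 6) with hcase | hcase
  · -- the blocks are too short
    refine le_trans ?_ hCH
    have k1 : (K : ℝ) ≤ 3 * h + 6 := by exact_mod_cast hcase.le
    have k2 : (x : ℝ) ≤ N * (3 * h + 7) := by
      have : (N : ℝ) * K ≤ N * (3 * h + 6) := mul_le_mul_of_nonneg_left k1 (by linarith)
      linarith
    have k3 : (x : ℝ) * Real.log 2 ≤ x := by
      have : (0 : ℝ) ≤ x := Nat.cast_nonneg x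
      nlinarith
    have k0 : (0 : ℝ) ≤ x1 := Nat.cast_nonneg x1
    have k4 : (N : ℝ) * (h + 1) ≤ N * (h + e + 1) + (N₂ + 1) * ((x1 : ℝ) + 2 + e + 1) := by
      have : 0 ≤ (N : ℝ) * e + (N₂ + 1) * ((x1 : ℝ) + 2 + e + 1) := by positivity
      linarith only [this]
    have k5 : (0 : ℝ) ≤ N * (h + e + 1) + (N₂ + 1) * ((x1 : ℝ) + 2 + e + 1) := by positivity
    have k6 : 0 ≤ (J : ℝ) * ρ := mul_nonneg hJr hρ
    have k7 : (20 : ℝ) * (N * (h + e + 1) + (N₂ + 1) * ((x1 : ℝ) + 2 + e + 1)) ≤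
        (20 + 7 * C + c₂) * (N * (h + e + 1) + (N₂ + 1) * ((x1 : ℝ) + 2 + e + 1)) :=
      mul_le_mul_of_nonneg_right (by linarith) k5
    have k8 : 0 ≤ (N : ℝ) * h := mul_nonneg (by linarith) hhr
    linarith only [k2, k3, k4, k6, k7, k8, hKr, hNr]
  · -- the main case
    have hK0 : 0 < K := by omega
    have hl1 : N₂ * K ≤ lam := by
      rw [hN₂]
      exact Nat.div_mul_le_self lam K
    have hl2n : lam ≤ N₂ * K + K := by
      have := Nat.lt_div_mul_add (a := lam) hK0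
      rw [← hN₂] at this
      omega
    have hS1 : ∀ i < N, Spn 1 h F.p (F.plk w lam i₀ z).d (rlab (F.plk w lam i₀ z) K i) ρ := by
      intro i hi ω hω v B
      refine Plk.strip_conc F (hh := hh) (x1 := x1) (by omega) hlin (hch.coarse hlaw hE1)
        (fun ω ω' _ _ e' => plC_rlab (F.plk w lam i₀ z) K N hi e') ?_ ω hω v B
      intro ω ω' _ _ e'
      have a1 : (F.plk w lam i₀ z).c (0 + i * K) ω = (F.plk w lam i₀ z).c (0 + i * K) ω' :=
        (Prod.ext_iff.mp e').1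
      have a2 : F.plab w lam i₀ z ω = F.plab w lam i₀ z ω' := (Prod.ext_iff.mp a1).2
      have a3 := Prod.ext_iff.mp (Prod.ext_iff.mp a2).1
      exact Prod.ext (Prod.ext_iff.mp a3.1).2 (Prod.ext_iff.mp a3.2).2
    have hr : w + lam + x - lam = w + x := by omega
    have hS2 : ∀ i < N₂, Spn 0 (x1 + 2) F.p
        (F.pj i₀ (w + lam + x - lam) (F.plab (w + lam + x - lam) lam i₀ z)).d
        (rlab (F.pj i₀ (w + lam + x - lam) (F.plab (w + lam + x - lam) lam i₀ z)) K i) ρ := by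
      rw [hr]
      intro i hi ω hω v B
      have hic := Plk.interval_conc F (w := w + x) (Sd := F.plab (w + x) lam i₀ z) (x1 := x1)
        (h := x1 + 2) le_rfl (hch.coarse hlaw hE2)
        (L := rlab (F.pj i₀ (w + x) (F.plab (w + x) lam i₀ z)) K i)
        (fun ω ω' _ _ e' =>
          plC_rlab (F.pj i₀ (w + x) (F.plab (w + x) lam i₀ z)) K N₂ hi e') ω hω v B
      refine le_trans (le_of_eq (Finset.sum_congr rfl fun ω' _ => ?_)) hic
      by_cases hst : ∃ c : Fin 0 → ℝ, ∀ j, |(F.pj i₀ (w + x) (F.plab (w + x) lam i₀ z)).d ω' j -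
          v j - ∑ i, c i * B i j| ≤ 4 / 2 ^ (x1 + 2)
      · exact (if_pos hst).trans (if_pos hst).symm
      · exact (if_neg hst).trans (if_neg hst).symm
    have hmain := hsum J F i₀ z w lam N K (K - (3 * h + 6)) h N₂ K (K - (2 * (x1 + 2) + 3))
      (x1 + 2) (w + lam + x) e ρ (2 * Real.log (2 * b + 5) + 2 * Real.log 3)
      (lam * Real.log 2 + 2 * Real.log (2 * b + 5) + 2 * (2 * Real.log 3)) hJ (by omega) hl1
      hTm hz (by omega) (by omega) (by omega) (by omega)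
      (by
        have := Plk.CH_X_label F (w := w) (lam := lam) (by omega) (i0 := i₀) hb hzb
        push_cast at this
        exact this)
      (by
        have := Plk.CH_X_pt F (w := w) (K := N * K) (lam := lam) (r := w + lam + x) (by omega)
          (by omega) (i0 := i₀) hb hzb
        push_cast at this
        exact this)
      hS1 hS2
    have ca : ((K - (3 * h + 6) : ℕ) : ℝ) = (K : ℝ) - 3 * h - 6 := by
      rw [Nat.cast_sub (by omega)]
      push_cast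
      ring
    have ca₂ : ((K - (2 * (x1 + 2) + 3) : ℕ) : ℝ) = (K : ℝ) - 2 * ((x1 : ℝ) + 2) - 3 := by
      rw [Nat.cast_sub (by omega)]
      push_cast
      ring
    refine plk_arith (a := ((K - (3 * h + 6) : ℕ) : ℝ))
      (a₂ := ((K - (2 * (x1 + 2) + 3) : ℕ) : ℝ)) (h₂ := (x1 : ℝ) + 2) (lam := (lam : ℝ))
      (N₂ := (N₂ : ℝ)) (by linarith) hKr hN₂r hl2 hl2' ca ca₂ hhr (by positivity) hx2r hx1r
      ?_ ?_ he hρ hC hc₂0 ?_ ?_ ?_
    · exact_mod_cast hl2n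
    · exact_mod_cast hl1
    · have : x ≤ J := by omega
      exact_mod_cast this
    · have : lam ≤ J := by omega
      exact_mod_cast this
    · rw [hc₂]
      linarith

end Pool.K2S
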