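import Pool.Agent.H35.K2S.FFX2

/-!
# The rows of a plank family together with the remaining rows of the chart coordinate, up to an
arbitrary row

The statements of `FFX1` and `FFX2` with the top row `r ≤ J` instead of `J`.
-/

set_option autoImplicit false

namespace Pool.K2S

open Finset Real
open Pool.Agent.H49.Ent Pool.Agent.H32.Dense Pool.STK Pool.KA Pool.KA.Win Pool.KA.TRC Rows

variable {m J : ℕ}

namespace FF

/-- **Comparison.** The rows of a plank family and the remaining rows of the chart coordinate are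
at most the rows of the positions. -/
theorem compareR (F : Fam m J) (i₀ : Fin m) (z : F.Ω → Fin m → ℝ) {w lam K w₂ : ℕ} (r : ℕ) {C c₁ : ℝ}
    (hw₂ : w₂ ≤ J) (hK : w + K ≤ w₂)
    (hU : CH F.p (F.X (w + lam)) (fun ω => (F.T ω, F.plab w lam i₀ z ω)) ≤ c₁)
    (hL : CH F.p ((F.plk w lam i₀ z).X K) (fun ω => (F.X r ω, (F.T ω, F.plab w lam i₀ z ω))) ≤
      C) :
    CH (F.plk w lam i₀ z).p ((F.plk w lam i₀ z).X K) (F.plk w lam i₀ z).W +
      CH F.p (fun ω => ⌊(2 : ℝ) ^ r * F.x ω i₀⌋) (fun ω => (F.T ω, F.plab w₂ lam i₀ z ω)) ≤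
      c₁ + CH F.p (F.X r) (fun ω => (F.X (w + lam) ω, F.W ω)) + C +
        m * (2 * Real.log 5 + Real.log 3) := by
  have hp := F.isLaw.nonneg
  have hwJ : w ≤ J := by omega
  set G := F.plk w lam i₀ z with hG
  set B : F.Ω → _ := fun ω => (F.T ω, F.plab w lam i₀ z ω) with hB
  set Y : F.Ω → ℤ := fun ω => ⌊(2 : ℝ) ^ r * F.x ω i₀⌋ with hY
  -- the window label of the plank family
  have e0 : CH G.p (G.X K) G.W = CH F.p (G.X K) B := by
    refine CH_congr (p := F.p) hp ?_ ?_ ?_ ?_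
    · intro ω ω' _ _ e
      exact (Prod.ext_iff.mp e).1
    · intro ω ω' _ _ e
      exact (Prod.ext_iff.mp e).1
    · intro ω ω' _ _ e
      have e1 : F.T ω % 2 ^ (J - w) = F.T ω' % 2 ^ (J - w) := (Prod.ext_iff.mp e).1
      have e2 : F.plab w lam i₀ z ω = F.plab w lam i₀ z ω' := (Prod.ext_iff.mp e).2
      have e3 : F.T1 w ω = F.T1 w ω' :=
        (Prod.ext_iff.mp (Prod.ext_iff.mp (Prod.ext_iff.mp e2).1).1).1
      exact Prod.ext (T_det F w e3 e1) e2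
    · intro ω ω' _ _ e
      have e1 : F.T ω = F.T ω' := (Prod.ext_iff.mp e).1
      exact Prod.ext (det_T F w e1).2 (Prod.ext_iff.mp e).2
  -- chain rule
  have c1 := CH_bayes hp (F.X r) (G.X K) B
  have c2 : CH F.p Y (fun ω => (G.X K ω, B ω)) ≤ CH F.p (F.X r) (fun ω => (G.X K ω, B ω)) := by
    refine CH_mono_left hp fun ω ω' _ _ e => ?_
    have e1 : F.X r ω = F.X r ω' := (Prod.ext_iff.mp e).1
    exact congrFun e1 i₀
  have c3 : CH F.p Y (fun ω => (F.plab w₂ lam i₀ z ω, (G.X K ω, B ω))) ≤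
      CH F.p Y (fun ω => (G.X K ω, B ω)) :=
    CH_mono_cond hp fun ω ω' _ _ e => (Prod.ext_iff.mp e).2
  have c4 := CH_bayes hp Y (fun ω => (G.X K ω, F.plab w lam i₀ z ω))
    (fun ω => (F.T ω, F.plab w₂ lam i₀ z ω))
  have c5 : CH F.p Y (fun ω => (F.plab w₂ lam i₀ z ω, (G.X K ω, B ω))) =
      CH F.p Y (fun ω => ((G.X K ω, F.plab w lam i₀ z ω), (F.T ω, F.plab w₂ lam i₀ z ω))) := by
    refine CH_congr hp ?_ ?_ ?_ ?_
    · intro ω ω' _ _ e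
      exact (Prod.ext_iff.mp e).1
    · intro ω ω' _ _ e
      exact (Prod.ext_iff.mp e).1
    · intro ω ω' _ _ e
      have e1 := Prod.ext_iff.mp e
      have e2 := Prod.ext_iff.mp e1.2
      have e3 := Prod.ext_iff.mp e2.2
      exact Prod.ext (Prod.ext e2.1 e3.2) (Prod.ext e3.1 e1.1)
    · intro ω ω' _ _ e
      have e1 := Prod.ext_iff.mp e
      have e2 := Prod.ext_iff.mp e1.1
      have e3 := Prod.ext_iff.mp e1.2
      exact Prod.ext e3.2 (Prod.ext e2.1 (Prod.ext e3.1 e2.2))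
  have c6 := CH_nonneg hp (fun ω => (G.X K ω, F.plab w lam i₀ z ω))
    (fun ω => (Y ω, (F.T ω, F.plab w₂ lam i₀ z ω)))
  -- the labels are nested
  have d1 : CH F.p (fun ω => (G.X K ω, F.plab w lam i₀ z ω))
      (fun ω => (F.T ω, F.plab w₂ lam i₀ z ω)) ≤ m * (2 * Real.log 5 + Real.log 3) := by
    have a1 := CH_le_add hp (fun ω => (G.X K ω, F.plab w lam i₀ z ω)) (F.plab w lam i₀ z)
      (fun ω => (F.T ω, F.plab w₂ lam i₀ z ω))
    have a2 : CH F.p (F.plab w lam i₀ z) (fun ω => (F.T ω, F.plab w₂ lam i₀ z ω)) ≤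
        m * Real.log 5 := by
      obtain ⟨k, hk⟩ := Nat.exists_eq_add_of_le (show w ≤ w₂ by omega)
      have b1 := Plk.CH_plab_nest F (w := w) (K := k) (by omega) lam i₀ z
      rw [← hk] at b1
      refine le_trans ?_ b1
      exact CH_mono_cond hp fun ω ω' _ _ e => (Prod.ext_iff.mp e).2
    have a3 := CH_le_add hp (fun ω => (G.X K ω, F.plab w lam i₀ z ω)) (F.plab (w + K) lam i₀ z)
      (fun ω => (F.plab w lam i₀ z ω, (F.T ω, F.plab w₂ lam i₀ z ω)))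
    have a4 : CH F.p (F.plab (w + K) lam i₀ z)
        (fun ω => (F.plab w lam i₀ z ω, (F.T ω, F.plab w₂ lam i₀ z ω))) ≤ m * Real.log 5 := by
      obtain ⟨k, hk⟩ := Nat.exists_eq_add_of_le hK
      have b1 := Plk.CH_plab_nest F (w := w + K) (K := k) (by omega) lam i₀ z
      rw [← hk] at b1
      refine le_trans ?_ b1
      exact CH_mono_cond hp fun ω ω' _ _ e => (Prod.ext_iff.mp (Prod.ext_iff.mp e).2).2
    have a5 : CH F.p (fun ω => (G.X K ω, F.plab w lam i₀ z ω))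
        (fun ω => (F.plab (w + K) lam i₀ z ω,
          (F.plab w lam i₀ z ω, (F.T ω, F.plab w₂ lam i₀ z ω)))) ≤ m * Real.log 3 := by
      refine le_trans ?_ (Plk.CH_X_le F (w := w) (K := K) (by omega) lam i₀ z)
      refine le_trans (CH_mono_left hp (X' := G.X K) ?_) (CH_mono_cond hp ?_)
      · intro ω ω' _ _ e
        have e1 := Prod.ext_iff.mp e
        have e2 := Prod.ext_iff.mp e1.2
        exact Prod.ext e1.1 (Prod.ext_iff.mp e2.2).1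
      · intro ω ω' _ _ e
        have e1 := Prod.ext_iff.mp e
        exact Prod.ext e1.1 (Prod.ext_iff.mp e1.2).1
    have a6 : (m : ℝ) * (2 * Real.log 5 + Real.log 3) =
        m * Real.log 5 + (m * Real.log 5 + m * Real.log 3) := by ring
    rw [a6]
    linarith
  -- the upper bound
  have u1 := CH_le_add hp (F.X r) (F.X (w + lam)) B
  have u2 : CH F.p (F.X r) (fun ω => (F.X (w + lam) ω, B ω)) ≤
      CH F.p (F.X r) (fun ω => (F.X (w + lam) ω, F.W ω)) := by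
    refine CH_mono_cond hp fun ω ω' _ _ e => ?_
    have e1 := Prod.ext_iff.mp e
    have e2 := Prod.ext_iff.mp e1.2
    have e3 : F.plab w lam i₀ z ω = F.plab w lam i₀ z ω' := e2.2
    have e4 : F.Z ω = F.Z ω' := (Prod.ext_iff.mp e3).2
    exact Prod.ext e1.1 (Prod.ext e2.1 e4)
  rw [e0]
  linarith

/-- **Sum of the rows.** -/
theorem sum_rowsR : ∃ C₀ : ℝ, 0 ≤ C₀ ∧ ∀ (J : ℕ) (F : Fam 2 J) (i₀ : Fin 2)
    (z : F.Ω → Fin 2 → ℝ) (w lam N K a h N₂ K₂ a₂ h₂ r : ℕ) (e ρ C c₁ : ℝ),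
    r ≤ J → w + lam + N * K ≤ r → N₂ * K₂ ≤ lam → F.Tm e →
    Det F.p (fun ω => (F.l ω, (F.T1 w ω, F.Z ω))) z →
    2 ≤ h → a + (h + 3) * 2 + h ≤ K → 2 ≤ h₂ → a₂ + (h₂ + 3) * 1 + h₂ ≤ K₂ →
    CH F.p (F.X (w + lam)) (fun ω => (F.T ω, F.plab w lam i₀ z ω)) ≤ c₁ →
    CH F.p ((F.plk w lam i₀ z).X (N * K)) (fun ω => (F.X r ω, (F.T ω, F.plab w lam i₀ z ω))) ≤
      C →
    (∀ i < N, Spn 1 h F.p (F.plk w lam i₀ z).d (rlab (F.plk w lam i₀ z) K i) ρ) →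
    (∀ i < N₂, Spn 0 h₂ F.p (F.pj i₀ (r - lam) (F.plab (r - lam) lam i₀ z)).d
      (rlab (F.pj i₀ (r - lam) (F.plab (r - lam) lam i₀ z)) K₂ i) ρ) →
    N * (2 * (a * Real.log 2) - 9 * (a * Real.log 2) * ρ - 4 * e - C₀) -
        3 * (2 * (K * Real.log 2) + C₀) +
      (N₂ * (a₂ * Real.log 2 - 4 * (a₂ * Real.log 2) * ρ - 3 * e - C₀) -
        2 * (K₂ * Real.log 2 + C₀)) ≤
      c₁ + CH F.p (F.X r) (fun ω => (F.X (w + lam) ω, F.W ω)) + C + C₀ := by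
  obtain ⟨C₁, hC₁, h1⟩ := rows_thm 1
  obtain ⟨C₂, hC₂, h2⟩ := rows_thm 0
  refine ⟨C₁ + C₂ + (2 : ℕ) * (2 * Real.log 5 + Real.log 3), by positivity, ?_⟩
  intro J F i₀ z w lam N K a h N₂ K₂ a₂ h₂ r e ρ C c₁ hr hJ hN₂ he hz hh haK hh₂ haK₂ hU hL
    hc hc₂
  have hp := F.isLaw.nonneg
  have hw : w ≤ J := by omega
  have hlam : lam ≤ J := by omega
  have hw₂ : r - lam ≤ J := by omega
  set w₂ := r - lam with hw₂'
  set S := F.plab w₂ lam i₀ z with hS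
  have hlog5 : (0 : ℝ) ≤ 2 * Real.log 5 + Real.log 3 := by positivity
  have p1 : (F.plk w lam i₀ z).Tm e := Plk.plk_Tm F hw i₀ z
    (fun ω ω' a' b' e1 e2 e3 => hz ω ω' a' b' (Prod.ext e1 (Prod.ext e2 e3))) he
  have p2 : (F.pj i₀ w₂ S).Tm e :=
    Pj.pj_Tm F i₀ hw₂ S (plab_Det F (by omega) hw₂ hz) he
  have q1 := h1 (J - w) (F.plk w lam i₀ z) K a h N 0 e ρ (by omega) p1 hh haK hc
  have q2 := h2 (J - w₂) (F.pj i₀ w₂ S) K₂ a₂ h₂ N₂ 0 e ρ (by omega) p2 hh₂ haK₂ hc₂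
  have r1 : CH (F.plk w lam i₀ z).p ((F.plk w lam i₀ z).X (0 + N * K))
      (fun ω => ((F.plk w lam i₀ z).X 0 ω, (F.plk w lam i₀ z).W ω)) ≤
      CH (F.plk w lam i₀ z).p ((F.plk w lam i₀ z).X (N * K)) (F.plk w lam i₀ z).W := by
    rw [Nat.zero_add]
    refine CH_mono_cond (p := F.p) hp fun ω ω' _ _ e' => ?_
    exact (Prod.ext_iff.mp e').2
  have r2 : CH (F.pj i₀ w₂ S).p ((F.pj i₀ w₂ S).X (0 + N₂ * K₂))
      (fun ω => ((F.pj i₀ w₂ S).X 0 ω, (F.pj i₀ w₂ S).W ω)) ≤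
      CH F.p (fun ω => ⌊(2 : ℝ) ^ r * F.x ω i₀⌋) (fun ω => (F.T ω, S ω)) := by
    rw [Nat.zero_add]
    refine (Pj.pj_row F i₀ hw₂ S (N₂ * K₂)).trans ?_
    refine le_trans (CH_mono_left hp (X' := fun ω => ⌊(2 : ℝ) ^ r * F.x ω i₀⌋) ?_)
      (CH_mono_cond hp ?_)
    · intro ω ω' _ _ e'
      have e1 : ⌊(2 : ℝ) ^ r * F.x ω i₀⌋ = ⌊(2 : ℝ) ^ r * F.x ω' i₀⌋ := (Prod.ext_iff.mp e').1
      obtain ⟨k, hk⟩ := Nat.exists_eq_add_of_le (show N₂ * K₂ + w₂ ≤ r by omega)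
      have e2 : (2 : ℝ) ^ r = 2 ^ (N₂ * K₂ + w₂ + k) := by rw [← hk]
      rw [e2] at e1
      exact Pool.STK.B58.floor_fine (N₂ * K₂ + w₂) k e1
    · intro ω ω' _ _ e'
      have e1 := Prod.ext_iff.mp e'
      have e2 := Prod.ext_iff.mp e1.2
      exact Prod.ext e1.1 (Prod.ext_iff.mp e2.2).1
  have r3 := compareR F i₀ z (w₂ := w₂) r hw₂ (show w + N * K ≤ w₂ by omega) hU hL
  push_cast at q1 q2 r3 ⊢
  have k1 : (0 : ℝ) ≤ N := by positivity
  have k2 : (0 : ℝ) ≤ N₂ := by positivity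
  have k3 : (N : ℝ) * (C₁ + C₂ + 2 * (2 * Real.log 5 + Real.log 3)) ≥ N * C₁ := by
    have : 0 ≤ (N : ℝ) * (C₂ + 2 * (2 * Real.log 5 + Real.log 3)) := by positivity
    nlinarith
  have k4 : (N₂ : ℝ) * (C₁ + C₂ + 2 * (2 * Real.log 5 + Real.log 3)) ≥ N₂ * C₂ := by
    have : 0 ≤ (N₂ : ℝ) * (C₁ + 2 * (2 * Real.log 5 + Real.log 3)) := by positivity
    nlinarith
  nlinarith [q1, q2, r1, r2, r3, k3, k4]

end FF

end Pool.K2S
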